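import Pool.Agent.H27.Tgt.Glue
import Pool.Graph.R_pool_sql_team_seeded_620a6dc7.H865_small.Glob2

/-! Immersions of a closed manifold minus balls. -/

set_option autoImplicit false
set_option linter.unusedSectionVars false

open scoped Topology ContDiff Manifold RealInnerProductSpace
open Set Metric Filter Function Pool.Agent.H27.Sch
open Pool.Agent.Y522 (LD)

noncomputable section

namespace Pool.Agent.H27.Tgt

variable {n : ℕ}

/-- a local diffeomorphism has injective differential -/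
theorem inj_of_LD {X Y : Type} [TopologicalSpace X] [ChartedSpace (EU n) X] [IsManifold (𝓡 n) ∞ X]
    [TopologicalSpace Y] [ChartedSpace (EU n) Y] [IsManifold (𝓡 n) ∞ Y] {f : X → Y} {x : X}
    (hf : LD n f x) : Injective (mfderiv (𝓡 n) (𝓡 n) f x) := Y522.LD.mfderiv_injective hf

theorem punctured {M N W : Type} [TopologicalSpace M] [T2Space M] [ChartedSpace (EU n) M]
    [TopologicalSpace N] [T2Space N] [CompactSpace N] [ChartedSpace (EU n) N]
    [IsManifold (𝓡 n) ∞ N] [TopologicalSpace W] [T2Space W] [ChartedSpace (EU n) W]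
    [IsManifold (𝓡 n) ∞ W] {π : W → N} (hπ : ∀ w, LD n π w) {k : ℕ} {β : Fin k → EU n → M}
    (hβ : ∀ i x, ‖x‖ ≤ 1 → LD n (β i) x)
    (hβi : ∀ i j x y, ‖x‖ ≤ 1 → ‖y‖ ≤ 1 → β i x = β j y → i = j ∧ x = y)
    {G : M → N} (hG : ∀ y, (∀ i x, ‖x‖ ≤ 1 → β i x ≠ y) → LD n G y)
    {F : Fin k → ℝ → EU n → W} (hF : ∀ i, Reg (𝓡 n) (F i))
    (hGF : ∀ i, ∃ a > 0, ∀ x, 1 < ‖x‖ → ‖x‖ < 1 + a → G (β i x) = π (F i 1 x)) :
    ∃ p : M → N, (∀ y, LD n p y) ∧ ∀ y, (∀ i x, ‖x‖ ≤ 1 → β i x ≠ y) → p y = G y := by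
  have hdim : Module.finrank ℝ (EU n) = n := by rw [finrank_euclideanSpace, Fintype.card_fin]
  have h1 : ∀ i, ∃ Q : EU n → N, (∀ x, ‖x‖ ≤ 1 → LD n Q x) ∧
      ∃ a > 0, ∀ x, |‖x‖ - 1| < a → Q x = π (F i 1 x) := fun i =>
    end_ball (I := 𝓡 n) (π := π) (fun w => Y522.LD.contMDiffAt (hπ w))
      (fun w => inj_of_LD (hπ w)) hdim (hF i)
  choose Q hQ a ha haQ using h1
  refine glue hβ hβi hG hQ fun i => ?_
  obtain ⟨b, hb, hbG⟩ := hGF i
  refine ⟨min (a i) b, lt_min (ha i) hb, fun x h1 h2 => ?_⟩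
  rw [hbG x h1 (h2.trans_le (by linarith [min_le_right (a i) b]))]
  refine (haQ i x ?_).symm
  rw [abs_of_pos (by linarith)]
  linarith [min_le_left (a i) b]

end Pool.Agent.H27.Tgt
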