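import Pool.Agent.H27.Sch.Wid

/-! Lifting a collar to an immersed ball, for maps to a manifold. -/

set_option autoImplicit false
set_option linter.unusedSectionVars false

open scoped Topology ContDiff Manifold RealInnerProductSpace InnerProduct
open Set Metric Filter Function Pool.Agent.H27.Sch

noncomputable section

namespace Pool.Agent.H27.Tgt

variable {E : Type} [NormedAddCommGroup E] [InnerProductSpace ℝ E] [FiniteDimensional ℝ E]
  [CompleteSpace E]
variable {V : Type} [NormedAddCommGroup V] [InnerProductSpace ℝ V] [FiniteDimensional ℝ V]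
  [CompleteSpace V]
variable {W : Type} [TopologicalSpace W]

lemma adj_smooth : ContDiff ℝ ∞ (fun A : E →L[ℝ] V => ContinuousLinearMap.adjoint A) := by
  have h : IsBoundedLinearMap ℝ (fun A : E →L[ℝ] V => ContinuousLinearMap.adjoint A) :=
    ⟨⟨fun x y => map_add _ _ _, fun c x => by simp⟩, 1, one_pos, fun x => by simp⟩
  exact h.contDiff

/-- the pseudoinverse -/
def pinv (A : E →L[ℝ] V) : V →L[ℝ] E :=
  (ContinuousLinearMap.inverse ((ContinuousLinearMap.adjoint A).comp A)).comp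
    (ContinuousLinearMap.adjoint A)

lemma gram_inj {A : E →L[ℝ] V} (hA : Injective A) :
    Injective ((ContinuousLinearMap.adjoint A).comp A) := by
  rw [injective_iff_map_eq_zero]
  intro v hv
  have h1 : ⟪ContinuousLinearMap.adjoint A (A v), v⟫ = 0 := by
    have h2 : ContinuousLinearMap.adjoint A (A v) = 0 := hv
    rw [h2, inner_zero_left]
  rw [ContinuousLinearMap.adjoint_inner_left, real_inner_self_eq_norm_sq] at h1
  have h3 : A v = 0 := norm_eq_zero.1 (pow_eq_zero_iff (by norm_num) |>.1 h1)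
  exact hA (h3.trans (map_zero A).symm)

lemma pinv_left {A : E →L[ℝ] V} (hA : Injective A) (v : E) : pinv A (A v) = v := by
  obtain ⟨e, he⟩ := (inj_iff _).1 (gram_inj hA)
  have h1 : pinv A (A v) = ContinuousLinearMap.inverse ((ContinuousLinearMap.adjoint A).comp A)
    (((ContinuousLinearMap.adjoint A).comp A) v) := rfl
  rw [h1, ← he, ContinuousLinearMap.inverse_equiv]
  exact e.symm_apply_apply v

lemma pinv_smooth {A : E →L[ℝ] V} (hA : Injective A) :
    ContDiffAt ℝ ∞ (pinv : (E →L[ℝ] V) → (V →L[ℝ] E)) A := by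
  obtain ⟨e, he⟩ := (inj_iff _).1 (gram_inj hA)
  have h0 : ContDiffAt ℝ ∞ (fun A : E →L[ℝ] V => ContinuousLinearMap.adjoint A) A :=
    adj_smooth.contDiffAt
  have h1 : ContDiffAt ℝ ∞ (fun A : E →L[ℝ] V => (ContinuousLinearMap.adjoint A).comp A) A :=
    h0.clm_comp contDiffAt_id
  have h2 : ContDiffAt ℝ ∞ (ContinuousLinearMap.inverse : (E →L[ℝ] E) → (E →L[ℝ] E))
      ((ContinuousLinearMap.adjoint A).comp A) := by
    rw [← he]
    exact contDiffAt_map_inverse e
  have h3 : ContDiffAt ℝ ∞ (fun A : E →L[ℝ] V => ContinuousLinearMap.inverse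
      ((ContinuousLinearMap.adjoint A).comp A)) A :=
    ContDiffAt.comp (f := fun A : E →L[ℝ] V => (ContinuousLinearMap.adjoint A).comp A)
      (g := (ContinuousLinearMap.inverse : (E →L[ℝ] E) → (E →L[ℝ] E))) A h2 h1
  exact h3.clm_comp h0

/-- local lifting -/
structure Lif (φ : W → V) (G H : E → W) : Prop where
  cG : Continuous G
  cH : Continuous H
  sG : ContDiff ℝ ∞ (fun x => φ (G x))
  sH : ContDiff ℝ ∞ (fun x => φ (H x))
  lift : ∀ x z, Injective (fderiv ℝ (fun x => φ (G x)) z) → G z = H x →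
    ∃ K : E → E, ContDiffAt ℝ ∞ K x ∧ K x = z ∧ ∀ᶠ x' in 𝓝 x, G (K x') = H x'

lemma isOpen_injG {g : E → V} (hg : ContDiff ℝ ∞ g) : IsOpen {z | Injective (fderiv ℝ g z)} :=
  ContinuousLinearMap.isOpen_injective.preimage (hg.continuous_fderiv (by simp))

/-- the cut off inverse of the differential -/
def AA (b : E → ℝ) (g : E → V) (z : E) : V →L[ℝ] E := b z • pinv (fderiv ℝ g z)

lemma AA_smooth {b : E → ℝ} (hb : ContDiff ℝ ∞ b) {R : ℝ} (hb0 : ∀ z, R ≤ ‖z‖ → b z = 0)
    {g : E → V} (hg : ContDiff ℝ ∞ g) (hgi : ∀ z, ‖z‖ ≤ R → Injective (fderiv ℝ g z)) :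
    ContDiff ℝ ∞ (AA b g) := by
  rw [contDiff_iff_contDiffAt]
  intro z
  rcases le_or_gt ‖z‖ R with h | h
  · exact hb.contDiffAt.smul ((pinv_smooth (hgi z h)).comp z
      (hg.fderiv_right (m := ∞) (by simp)).contDiffAt)
  · refine (contDiffAt_const (c := (0 : V →L[ℝ] E))).congr_of_eventuallyEq ?_
    filter_upwards [continuous_norm.continuousAt.eventually_const_lt h] with y hy
    simp only [AA]
    rw [hb0 y hy.le, zero_smul]

lemma AA_apply {b : E → ℝ} {R : ℝ} (hb0 : ∀ z, R ≤ ‖z‖ → b z = 0)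
    {g : E → V} (hgi : ∀ z, ‖z‖ ≤ R → Injective (fderiv ℝ g z)) (z v : E) :
    AA b g z (fderiv ℝ g z v) = b z • v := by
  simp only [AA, _root_.smul_apply]
  rcases le_or_gt ‖z‖ R with h | h
  · rw [pinv_left (hgi z h)]
  · rw [hb0 z h.le, zero_smul, zero_smul]

/-- the field on the product -/
def ZZ (b₁ b₂ : E → ℝ) (g h : E → V) (p : E × E) : E × E :=
  (-((b₂ p.1 * b₁ p.2) • p.1), -(b₂ p.1 • AA b₁ g p.2 (fderiv ℝ h p.1 p.1)))

section

variable {b₁ b₂ : E → ℝ} {g h : E → V} {R : ℝ} {Fl : ℝ → E × E → E × E}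

lemma ZZ_smooth (hb₁ : ContDiff ℝ ∞ b₁) (hb₂ : ContDiff ℝ ∞ b₂) (hb0 : ∀ z, R ≤ ‖z‖ → b₁ z = 0)
    (hg : ContDiff ℝ ∞ g) (hh : ContDiff ℝ ∞ h) (hgi : ∀ z, ‖z‖ ≤ R → Injective (fderiv ℝ g z)) :
    ContDiff ℝ ∞ (ZZ b₁ b₂ g h) := by
  unfold ZZ
  have h1 : ContDiff ℝ ∞ (fun p : E × E => p.1) := contDiff_fst
  have h2 : ContDiff ℝ ∞ (fun p : E × E => p.2) := contDiff_snd
  have h3 : ContDiff ℝ ∞ (fun p : E × E => AA b₁ g p.2) := (AA_smooth hb₁ hb0 hg hgi).comp h2
  have h4 : ContDiff ℝ ∞ (fun p : E × E => fderiv ℝ h p.1 p.1) :=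
    ((hh.fderiv_right (m := ∞) (by simp)).comp h1).clm_apply h1
  exact (((hb₂.comp h1).mul (hb₁.comp h2)).smul h1).neg.prodMk
    ((hb₂.comp h1).smul (h3.clm_apply h4)).neg

lemma ZZ_zero (hb0 : ∀ z, R ≤ ‖z‖ → b₁ z = 0) {p : E × E} (hp : R ≤ ‖p.2‖) :
    ZZ b₁ b₂ g h p = 0 := by
  simp only [ZZ, AA]
  rw [hb0 _ hp]
  simp

/-- the relation is preserved -/
lemma conserved [T2Space W] {φ : W → V} {G H : E → W} (hL : Lif φ G H)
    (hFl : GFlow (ZZ b₁ b₂ (fun x => φ (G x)) (fun x => φ (H x))) Fl)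
    (hb₁c : Continuous b₁) (hb₂c : Continuous b₂)
    (hb0 : ∀ z, R ≤ ‖z‖ → b₁ z = 0)
    (hgi : ∀ z, ‖z‖ ≤ R → Injective (fderiv ℝ (fun x => φ (G x)) z))
    (p : E × E) (hp : G p.2 = H p.1) (t : ℝ) : G (Fl t p).2 = H (Fl t p).1 := by
  set g : E → V := fun x => φ (G x) with hg
  set h : E → V := fun x => φ (H x) with hh
  set S : Set ℝ := {t | G (Fl t p).2 = H (Fl t p).1} with hS
  have hcont : Continuous fun t => Fl t p := hFl.cont_t p
  have hcl : IsClosed S := isClosed_eq (hL.cG.comp (continuous_snd.comp hcont))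
    (hL.cH.comp (continuous_fst.comp hcont))
  have hop : IsOpen S := by
    rw [isOpen_iff_mem_nhds]
    intro t₀ ht₀
    rcases le_or_gt R ‖(Fl t₀ p).2‖ with hR | hR
    · refine Filter.univ_mem' fun t => ?_
      have h1 : Fl t p = Fl t₀ p := by
        have h2 := hFl.fixed (ZZ_zero (b₂ := b₂) (g := g) (h := h) hb0 hR) (t - t₀)
        rwa [← hFl.add, sub_add_cancel] at h2
      show G (Fl t p).2 = H (Fl t p).1
      rw [h1]
      exact ht₀
    · set x₀ := (Fl t₀ p).1 with hx₀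
      set z₀ := (Fl t₀ p).2 with hz₀
      obtain ⟨K, hK1, hK2, hK3⟩ := hL.lift x₀ z₀ (hgi z₀ hR.le) ht₀
      have hxc : ContinuousAt (fun t => (Fl t p).1) t₀ := (continuous_fst.comp hcont).continuousAt
      have hzc : ContinuousAt (fun t => (Fl t p).2) t₀ := (continuous_snd.comp hcont).continuousAt
      have hKc : ContinuousAt (fun t => K (Fl t p).1) t₀ :=
        ContinuousAt.comp (f := fun t => (Fl t p).1) (g := K) hK1.continuousAt hxc
      -- the Lipschitz constant
      have hps : ContDiffAt ℝ 1 (fun u : E => pinv (fderiv ℝ g u)) z₀ :=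
        ((pinv_smooth (hgi z₀ hR.le)).comp z₀
          (hL.sG.fderiv_right (m := ∞) (by simp)).contDiffAt).of_le (by simp)
      obtain ⟨k, s, hs, hks⟩ := hps.exists_lipschitzOnWith
      -- the vector
      set ζ : ℝ → V := fun t => fderiv ℝ g (K (Fl t p).1) (fderiv ℝ K (Fl t p).1 (Fl t p).1) with hζ
      have hζc : ContinuousAt ζ t₀ := by
        have h1 : ContinuousAt (fun t => fderiv ℝ g (K (Fl t p).1)) t₀ :=
          ContinuousAt.comp (f := fun t => K (Fl t p).1) (g := fderiv ℝ g)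
            (hL.sG.continuous_fderiv (by simp)).continuousAt hKc
        have h2 : ContinuousAt (fderiv ℝ K) x₀ :=
          (hK1.fderiv_right (m := ∞) (by simp)).continuousAt
        have h3 : ContinuousAt (fun t => fderiv ℝ K (Fl t p).1) t₀ :=
          ContinuousAt.comp (f := fun t => (Fl t p).1) (g := fderiv ℝ K) h2 hxc
        exact h1.clm_apply (h3.clm_apply hxc)
      set β : ℝ → ℝ := fun t => b₂ (Fl t p).1 * b₁ (Fl t p).2 with hβ
      have hβc : ContinuousAt β t₀ := by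
        exact ((hb₂c.comp (continuous_fst.comp hcont)).mul
          (hb₁c.comp (continuous_snd.comp hcont))).continuousAt
      set v : ℝ → E → E := fun t u => -(β t • pinv (fderiv ℝ g u) (ζ t)) with hv
      obtain ⟨C, hC⟩ : ∃ C : NNReal, ∀ᶠ t in 𝓝 t₀, ‖β t • ζ t‖ ≤ C := by
        refine ⟨⟨‖β t₀ • ζ t₀‖ + 1, by positivity⟩, ?_⟩
        have h1 : ContinuousAt (fun t => ‖β t • ζ t‖) t₀ := (hβc.smul hζc).norm
        exact (h1.eventually_lt_const (by
          show ‖β t₀ • ζ t₀‖ < ‖β t₀ • ζ t₀‖ + 1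
          linarith)).mono fun t ht => ht.le
      have hlip : ∀ᶠ t in 𝓝 t₀, LipschitzOnWith (k * C) (v t) s := by
        filter_upwards [hC] with t ht
        refine LipschitzOnWith.of_dist_le_mul fun a ha b hb => ?_
        have h1 : v t a - v t b =
            -((pinv (fderiv ℝ g a) - pinv (fderiv ℝ g b)) (β t • ζ t)) := by
          simp only [hv, map_smul]
          rw [_root_.sub_apply, smul_sub]
          abel
        rw [dist_eq_norm, h1, norm_neg]
        refine (ContinuousLinearMap.le_opNorm _ _).trans ?_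
        have h2 := hks.dist_le_mul a ha b hb
        rw [dist_eq_norm] at h2
        calc _ ≤ (k * dist a b) * C := by gcongr
          _ = _ := by push_cast; ring
      have hKe : ∀ᶠ x in 𝓝 x₀, ContDiffAt ℝ 1 K x :=
        (hK1.of_le (by simp : (1 : WithTop ℕ∞) ≤ ∞)).eventually (by simp)
      have hKt : Tendsto (fun t => K (Fl t p).1) (𝓝 t₀) (𝓝 z₀) := by
        rw [← hK2]
        exact hKc
      have heq := ODE_solution_unique_of_eventually (v := v) (s := fun _ => s) (K := k * C)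
        (t₀ := t₀) (f := fun t => (Fl t p).2) (g := fun t => K (Fl t p).1) hlip ?_ ?_ hK2.symm
      · filter_upwards [heq, hxc.eventually hK3] with t h1 h2
        show G (Fl t p).2 = H (Fl t p).1
        rw [← h2]
        exact congrArg G h1
      · filter_upwards [hzc.eventually hs, hxc.eventually (eventually_eventually_nhds.2 hK3),
          hxc.eventually hKe] with t h1 h2 h3
        refine ⟨?_, h1⟩
        have h4 : HasDerivAt (fun t => (Fl t p).2) (ZZ b₁ b₂ g h (Fl t p)).2 t :=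
          (hFl.deriv p t).snd
        refine h4.congr_deriv ?_
        have h5 : fderiv ℝ h (Fl t p).1 (Fl t p).1 = ζ t := by
          have h6 : HasFDerivAt K (fderiv ℝ K (Fl t p).1) (Fl t p).1 :=
            (h3.differentiableAt (by simp)).hasFDerivAt
          have h7 : HasFDerivAt g (fderiv ℝ g (K (Fl t p).1)) (K (Fl t p).1) :=
            (hL.sG.differentiable (by simp) _).hasFDerivAt
          have h8 : (g ∘ K) =ᶠ[𝓝 (Fl t p).1] h := h2.mono fun x' hx' => by
            show φ (G (K x')) = φ (H x')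
            rw [hx']
          have h9 := ((h7.comp _ h6).congr_of_eventuallyEq h8.symm).fderiv
          rw [h9]
          rfl
        simp only [ZZ, hv, hβ]
        rw [h5]
        simp only [AA, _root_.smul_apply, smul_smul]
      · filter_upwards [hKt.eventually hs,
          hxc.eventually hKe,
          hKt.eventually ((isOpen_injG hL.sG).mem_nhds (hgi z₀ hR.le))] with t h1 h3 h4
        refine ⟨?_, h1⟩
        have h6 : HasFDerivAt K (fderiv ℝ K (Fl t p).1) (Fl t p).1 :=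
          (h3.differentiableAt (by simp)).hasFDerivAt
        have h7 := h6.comp_hasDerivAt t (hFl.deriv p t).fst
        refine h7.congr_deriv ?_
        have h8 : Injective (fderiv ℝ g (K (Fl t p).1)) := h4
        simp only [ZZ, hv, hβ, hζ]
        rw [pinv_left h8, map_neg, map_smul]
  have huniv : S = univ := IsClopen.eq_univ ⟨hcl, hop⟩ ⟨0, by
    show G (Fl 0 p).2 = H (Fl 0 p).1
    rw [hFl.zero]
    exact hp⟩
  have : t ∈ S := by rw [huniv]; exact mem_univ t
  exact this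

/-- the first component -/
lemma fst_eq (hFl : GFlow (ZZ b₁ b₂ g h) Fl) (hb₁n : ∀ z, 0 ≤ b₁ z) (hb₂n : ∀ z, 0 ≤ b₂ z)
    (hb₂1 : ∀ z, ‖z‖ ≤ 1 → b₂ z = 1) {x z : E} (hx : ‖x‖ ≤ 1) {T : ℝ}
    (hz : ∀ t ∈ Icc 0 T, b₁ (Fl t (x, z)).2 = 1) :
    ∀ t ∈ Icc 0 T, (Fl t (x, z)).1 = Real.exp (-t) • x := by
  set u : ℝ → E := fun t => (Fl t (x, z)).1 with hu
  have hud : ∀ t, HasDerivAt u (-((b₂ (u t) * b₁ (Fl t (x, z)).2) • u t)) t := fun t =>
    (hFl.deriv (x, z) t).fst
  have hanti : AntitoneOn (fun t => ‖u t‖ ^ 2) (Ici 0) := by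
    apply antitoneOn_of_deriv_nonpos (convex_Ici 0)
    · exact fun t _ => ((hud t).norm_sq).continuousAt.continuousWithinAt
    · exact fun t _ => ((hud t).norm_sq).differentiableAt.differentiableWithinAt
    · intro t _
      rw [((hud t).norm_sq).deriv, inner_neg_right, inner_smul_right, real_inner_self_eq_norm_sq]
      have := mul_nonneg (mul_nonneg (hb₂n (u t)) (hb₁n (Fl t (x, z)).2)) (sq_nonneg ‖u t‖)
      linarith
  have hle : ∀ t, 0 ≤ t → ‖u t‖ ≤ 1 := by
    intro t ht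
    have h1 := hanti (mem_Ici.2 le_rfl) (mem_Ici.2 ht) ht
    simp only [hu, hFl.zero] at h1
    have h2 : ‖(Fl t (x, z)).1‖ ≤ ‖x‖ := le_of_sq_le_sq h1 (norm_nonneg _)
    exact h2.trans hx
  have hlip : LipschitzWith 1 (fun v : E => -v) := by
    refine LipschitzWith.of_dist_le_mul fun a b => ?_
    rw [dist_neg_neg]
    simp
  have hunq := ODE_solution_unique (v := fun _ v => -v) (f := u)
    (g := fun t => Real.exp (-t) • x) (a := 0) (b := T) (K := 1) (fun _ => hlip)
    (fun t _ => (hud t).continuousAt.continuousWithinAt)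
    (fun t ht => by
      have h1 := (hud t).hasDerivWithinAt (s := Ici t)
      rw [hz t ⟨ht.1, ht.2.le⟩, hb₂1 _ (hle t ht.1), mul_one, one_smul] at h1
      exact h1)
    (fun t _ => by
      have : ContinuousAt (fun t : ℝ => Real.exp (-t) • x) t := by fun_prop
      exact this.continuousWithinAt)
    (fun t _ => by
      have h1 : HasDerivAt (fun t : ℝ => Real.exp (-t) • x) (-(Real.exp (-t) • x)) t := by
        have := ((hasDerivAt_neg t).exp).smul_const x
        refine this.congr_deriv ?_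
        rw [mul_neg, mul_one, neg_smul]
      exact h1.hasDerivWithinAt)
    (by simp [hu, hFl.zero])
  exact fun t ht => hunq ht

end

/-- the lifted collar -/
def cc (Fl : ℝ → E × E → E × E) (y : E) : E :=
  if 1 ≤ ‖y‖ then y else (Fl (-Real.log ‖y‖) (‖y‖⁻¹ • y, ‖y‖⁻¹ • y)).2

theorem exists_collar [T2Space W] {φ : W → V} {G H : E → W} (hL : Lif φ G H)
    (hGi : ∀ x, ‖x‖ ≤ 1 → Injective (fderiv ℝ (fun x => φ (G x)) x)) {a : ℝ} (ha : 0 < a)
    (ha1 : a < 1) (haG : ∀ x, |‖x‖ - 1| < a → G x = H x) {r₀ : ℝ} (hr₀ : 0 < r₀)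
    (hHi : ∀ x ∈ Sh E r₀, Injective (fderiv ℝ (fun x => φ (H x)) x)) :
    ∃ c : E → E, (∀ y, 1 - a < ‖y‖ → c y = y) ∧ ContinuousOn c {y | 0 < ‖y‖} ∧
      ∀ y ∈ Sh E r₀, (∀ s ∈ Icc ‖y‖ 1, ‖c ((s / ‖y‖) • y)‖ ≤ 1) →
        ContDiffAt ℝ ∞ c y ∧ Injective (fderiv ℝ c y) ∧ ∀ᶠ z in 𝓝 y, G (c z) = H z := by
  have hg := hL.sG
  have hh := hL.sH
  set g : E → V := fun x => φ (G x) with hgd
  set h : E → V := fun x => φ (H x) with hhd
  -- the radius
  obtain ⟨R, hR1, hR⟩ : ∃ R > 1, ∀ z : E, ‖z‖ ≤ R → Injective (fderiv ℝ g z) := by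
    have hK : IsCompact (closedBall (0:E) 1) := isCompact_closedBall 0 1
    obtain ⟨δ, hδ, hδ'⟩ := hK.exists_cthickening_subset_open (isOpen_injG hg) (fun x hx =>
      hGi x (by simpa using hx))
    refine ⟨1 + δ, by linarith, fun z hz => hδ' ?_⟩
    rw [cthickening_closedBall hδ.le zero_le_one, mem_closedBall_zero_iff]
    linarith
  let B₁ : ContDiffBump (0:E) := ⟨(1 + R) / 2, R, by linarith, by linarith⟩
  let B₂ : ContDiffBump (0:E) := ⟨1, 2, one_pos, by norm_num⟩
  set b₁ : E → ℝ := fun z => B₁ z with hb₁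
  set b₂ : E → ℝ := fun z => B₂ z with hb₂
  have hb₁s : ContDiff ℝ ∞ b₁ := B₁.contDiff
  have hb₂s : ContDiff ℝ ∞ b₂ := B₂.contDiff
  have hb₁n : ∀ z, 0 ≤ b₁ z := fun z => B₁.nonneg
  have hb₂n : ∀ z, 0 ≤ b₂ z := fun z => B₂.nonneg
  have hb₁0 : ∀ z, R ≤ ‖z‖ → b₁ z = 0 := fun z hz => B₁.zero_of_le_dist (by simpa using hz)
  have hb₂0 : ∀ z, 2 ≤ ‖z‖ → b₂ z = 0 := fun z hz => B₂.zero_of_le_dist (by simpa using hz)
  have hb₁1 : ∀ z, ‖z‖ ≤ (1 + R) / 2 → b₁ z = 1 := fun z hz =>
    B₁.one_of_mem_closedBall (by simpa using hz)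
  have hb₂1 : ∀ z, ‖z‖ ≤ 1 → b₂ z = 1 := fun z hz => B₂.one_of_mem_closedBall (by simpa using hz)
  obtain ⟨Fl, hFl⟩ := exists_gflow (ZZ_smooth (h := h) hb₁s hb₂s hb₁0 hg hh hR)
    (K := closedBall (0:E) 2 ×ˢ closedBall (0:E) R)
    ((isCompact_closedBall _ _).prod (isCompact_closedBall _ _)) (by
      rintro ⟨x, z⟩ hxz
      rw [mem_prod, not_and_or, mem_closedBall_zero_iff, mem_closedBall_zero_iff, not_le,
        not_le] at hxz
      simp only [ZZ, AA]
      rcases hxz with h | h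
      · rw [hb₂0 x h.le]; simp
      · rw [hb₁0 z h.le]; simp)
  -- near the sphere
  have hnear : ∀ y : E, 1 - a < ‖y‖ → ‖y‖ ≤ 1 →
      (Fl (-Real.log ‖y‖) (‖y‖⁻¹ • y, ‖y‖⁻¹ • y)).2 = y := by
    intro y hy1 hy2
    have hy0 : 0 < ‖y‖ := by linarith
    set x : E := ‖y‖⁻¹ • y with hx
    have hx1 : ‖x‖ = 1 := by rw [hx, norm_smul, norm_inv, norm_norm, inv_mul_cancel₀ hy0.ne']
    set T := -Real.log ‖y‖ with hT
    have hT0 : 0 ≤ T := by
      rw [hT, neg_nonneg]; exact Real.log_nonpos hy0.le hy2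
    have hexpT : Real.exp (-T) = ‖y‖ := by rw [hT, neg_neg, Real.exp_log hy0]
    have hg : ∀ t : ℝ, HasDerivAt (fun t : ℝ => (Real.exp (-t) • x, Real.exp (-t) • x))
        (-(Real.exp (-t) • x), -(Real.exp (-t) • x)) t := by
      intro t
      have h1 : HasDerivAt (fun t : ℝ => Real.exp (-t) • x) (-(Real.exp (-t) • x)) t := by
        have := ((hasDerivAt_neg t).exp).smul_const x
        refine this.congr_deriv ?_
        rw [mul_neg, mul_one, neg_smul]
      exact h1.prodMk h1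
    have h1 := hFl.uniq (γ := fun t : ℝ => (Real.exp (-t) • x, Real.exp (-t) • x)) (T := T)
      (fun t _ => (hg t).continuousAt.continuousWithinAt) (fun t ht => by
        refine (hg t).hasDerivWithinAt.congr_deriv ?_
        have hn : ‖Real.exp (-t) • x‖ = Real.exp (-t) := by
          rw [norm_smul, Real.norm_eq_abs, abs_of_pos (Real.exp_pos _), hx1, mul_one]
        have hle : Real.exp (-t) ≤ 1 := by
          rw [Real.exp_le_one_iff]; linarith [ht.1]
        have hge : ‖y‖ ≤ Real.exp (-t) := by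
          rw [← hexpT, Real.exp_le_exp]; linarith [ht.2]
        have e1 : b₁ (Real.exp (-t) • x) = 1 := hb₁1 _ (by rw [hn]; linarith)
        have e2 : b₂ (Real.exp (-t) • x) = 1 := hb₂1 _ (by rw [hn]; exact hle)
        set w := Real.exp (-t) • x with hw
        have e3 : fderiv ℝ h w = fderiv ℝ g w := by
          apply Filter.EventuallyEq.fderiv_eq
          have h5 : ∀ᶠ v in 𝓝 w, |‖v‖ - 1| < a := by
            have h6 : ContinuousAt (fun v : E => |‖v‖ - 1|) w := by fun_prop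
            refine h6.eventually_lt_const ?_
            show |‖w‖ - 1| < a
            rw [hn, abs_lt]
            constructor <;> linarith
          filter_upwards [h5] with v hv
          show φ (H v) = φ (G v)
          rw [haG v hv]
        have e4 : AA b₁ g w (fderiv ℝ h w w) = w := by
          rw [e3, AA_apply hb₁0 hR, e1, one_smul]
        simp only [ZZ]
        rw [e1, e2, mul_one, one_smul, one_smul, e4]) T ⟨hT0, le_rfl⟩
    simp only [neg_zero, Real.exp_zero, one_smul] at h1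
    rw [h1, hexpT, hx, smul_smul, mul_inv_cancel₀ hy0.ne', one_smul]
  have hcc : ∀ y : E, 1 - a < ‖y‖ → cc Fl y = y := by
    intro y hy
    unfold cc
    split_ifs with h
    · rfl
    · exact hnear y hy (not_le.1 h).le
  -- smoothness of the formula
  have hsm : ∀ y : E, 0 < ‖y‖ → ContDiffAt ℝ ∞
      (fun y : E => (Fl (-Real.log ‖y‖) (‖y‖⁻¹ • y, ‖y‖⁻¹ • y)).2) y := by
    intro y hy
    have hy0 : y ≠ 0 := norm_pos_iff.1 hy
    have h1 : ContDiffAt ℝ ∞ (fun y : E => ‖y‖) y := contDiffAt_norm ℝ hy0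
    have h2 : ContDiffAt ℝ ∞ (fun y : E => ‖y‖⁻¹ • y) y := (h1.inv hy.ne').smul contDiffAt_id
    have h3 : ContDiffAt ℝ ∞ (fun y : E => (-Real.log ‖y‖, (‖y‖⁻¹ • y, ‖y‖⁻¹ • y))) y :=
      ((h1.log hy.ne').neg).prodMk (h2.prodMk h2)
    exact contDiffAt_snd.comp y (hFl.smooth.contDiffAt.comp y h3)
  have hlt : ∀ y : E, ‖y‖ < 1 → cc Fl =ᶠ[𝓝 y]
      fun y : E => (Fl (-Real.log ‖y‖) (‖y‖⁻¹ • y, ‖y‖⁻¹ • y)).2 := by
    intro y hy
    filter_upwards [continuous_norm.continuousAt.eventually_lt_const hy] with v hv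
    simp [cc, not_le.2 hv]
  have hgt : ∀ y : E, 1 - a < ‖y‖ → cc Fl =ᶠ[𝓝 y] id := by
    intro y hy
    filter_upwards [continuous_norm.continuousAt.eventually_const_lt hy] with v hv
    exact hcc v hv
  have hccs : ∀ y : E, 0 < ‖y‖ → ContDiffAt ℝ ∞ (cc Fl) y := by
    intro y hy
    rcases lt_or_ge ‖y‖ 1 with h | h
    · exact (hsm y hy).congr_of_eventuallyEq (hlt y h)
    · exact contDiffAt_id.congr_of_eventuallyEq (hgt y (by linarith))
  refine ⟨cc Fl, hcc, fun y hy => (hccs y hy).continuousAt.continuousWithinAt, ?_⟩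
  intro y hy hpath
  have hy0 : 0 < ‖y‖ := hr₀.trans_le hy.1
  have key : ∀ᶠ z in 𝓝 y, G (cc Fl z) = H z := by
    rcases lt_or_ge (1 - a) ‖y‖ with h1 | h1
    · have h5 : ∀ᶠ v in 𝓝 y, |‖v‖ - 1| < a := by
        have h6 : ContinuousAt (fun v : E => |‖v‖ - 1|) y := by fun_prop
        refine h6.eventually_lt_const ?_
        show |‖y‖ - 1| < a
        rw [abs_lt]
        constructor <;> linarith [hy.2]
      filter_upwards [hgt y h1, h5] with v hv hv2
      rw [hv]
      exact haG v hv2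
    · have hy1 : ‖y‖ < 1 := by linarith
      -- the path
      set x : E := ‖y‖⁻¹ • y with hx
      have hpz : ∀ t ∈ Icc 0 (-Real.log ‖y‖), ‖(Fl t (x, x)).2‖ ≤ 1 := by
        intro t ht
        have hxn : ‖x‖ = 1 := by rw [hx, norm_smul, norm_inv, norm_norm, inv_mul_cancel₀ hy0.ne']
        rcases ht.1.eq_or_lt with h0 | h0
        · rw [← h0, hFl.zero]
          exact hxn.le
        · have hs : Real.exp (-t) ∈ Icc ‖y‖ 1 := by
            constructor
            · rw [← Real.exp_log hy0, Real.exp_le_exp]; linarith [ht.2]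
            · rw [Real.exp_le_one_iff]; linarith
          have h2 := hpath _ hs
          have h3 : ‖(Real.exp (-t) / ‖y‖) • y‖ = Real.exp (-t) := by
            rw [norm_smul, Real.norm_eq_abs, abs_of_pos (by positivity), div_mul_cancel₀ _ hy0.ne']
          have h4 : ¬1 ≤ Real.exp (-t) := by
            rw [not_le, Real.exp_lt_one_iff]; linarith
          have h5 : (Real.exp (-t))⁻¹ • (Real.exp (-t) / ‖y‖) • y = x := by
            rw [smul_smul, hx]
            congr 1
            field_simp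
          unfold cc at h2
          rw [h3, if_neg h4, h5, Real.log_exp, neg_neg] at h2
          exact h2
      -- nearby paths
      have hW : IsOpen {q : E × ℝ | ‖(Fl q.2 (q.1, q.1)).2‖ < (1 + R) / 2} := by
        refine isOpen_lt ?_ continuous_const
        have : Continuous fun q : E × ℝ => Fl q.2 (q.1, q.1) :=
          hFl.cont.comp (continuous_snd.prodMk (continuous_fst.prodMk continuous_fst))
        exact (continuous_snd.comp this).norm
      obtain ⟨U, V, hU, hV, hxU, hIV, hUV⟩ := generalized_tube_lemma (isCompact_singleton (x := x))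
        (isCompact_Icc (a := (0:ℝ)) (b := -Real.log ‖y‖)) hW (by
          rintro ⟨x', t⟩ ⟨hx', ht⟩
          rw [mem_singleton_iff] at hx'
          simp only at hx' ht
          subst hx'
          show ‖(Fl t (x, x)).2‖ < (1 + R) / 2
          have := hpz t ht
          linarith)
      have hxU' : x ∈ U := hxU rfl
      have hlog0 : 0 ≤ -Real.log ‖y‖ := by
        rw [neg_nonneg]; exact Real.log_nonpos hy0.le hy1.le
      obtain ⟨η, hη, hηV⟩ := Metric.isOpen_iff.1 hV _ (hIV ⟨hlog0, le_rfl⟩)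
      have hn1 : ContinuousAt (fun v : E => ‖v‖⁻¹ • v) y :=
        (continuous_norm.continuousAt.inv₀ hy0.ne').smul continuousAt_id
      have hn2 : ContinuousAt (fun v : E => -Real.log ‖v‖) y :=
        (continuous_norm.continuousAt.log hy0.ne').neg
      filter_upwards [hn1.eventually (hU.mem_nhds hxU'),
        hn2.eventually (Metric.ball_mem_nhds _ hη), hlt y hy1,
        continuous_norm.continuousAt.eventually_const_lt hy0,
        continuous_norm.continuousAt.eventually_lt_const hy1] with v hv1 hv2 hv3 hv4 hv5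
      rw [hv3]
      have hv6 : ‖‖v‖⁻¹ • v‖ = 1 := by
        rw [norm_smul, norm_inv, norm_norm, inv_mul_cancel₀ hv4.ne']
      have hT0 : 0 ≤ -Real.log ‖v‖ := by
        rw [neg_nonneg]; exact Real.log_nonpos hv4.le hv5.le
      have hb : ∀ t ∈ Icc 0 (-Real.log ‖v‖), b₁ (Fl t (‖v‖⁻¹ • v, ‖v‖⁻¹ • v)).2 = 1 := by
        intro t ht
        apply hb₁1
        have htV : t ∈ V := by
          rcases le_or_gt t (-Real.log ‖y‖) with h | h
          · exact hIV ⟨ht.1, h⟩
          · apply hηV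
            have hv2' : |-Real.log ‖v‖ - -Real.log ‖y‖| < η := hv2
            rw [mem_ball, Real.dist_eq]
            rw [abs_of_pos (by linarith)]
            have := (abs_lt.1 hv2').2
            linarith [ht.2]
        exact (hUV (show (‖v‖⁻¹ • v, t) ∈ U ×ˢ V from ⟨hv1, htV⟩)).le
      have h1 := fst_eq hFl hb₁n hb₂n hb₂1 (x := ‖v‖⁻¹ • v) (z := ‖v‖⁻¹ • v) hv6.le hb
        (-Real.log ‖v‖) ⟨hT0, le_rfl⟩
      have h2 := conserved hL hFl hb₁s.continuous hb₂s.continuous hb₁0 hR (‖v‖⁻¹ • v, ‖v‖⁻¹ • v)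
        (haG _ (by rw [hv6]; simpa using ha)) (-Real.log ‖v‖)
      rw [h2, h1, neg_neg, Real.exp_log hv4, smul_smul, mul_inv_cancel₀ hv4.ne', one_smul]
  refine ⟨hccs y hy0, ?_, key⟩
  have h1 : HasFDerivAt (cc Fl) (fderiv ℝ (cc Fl) y) y :=
    ((hccs y hy0).differentiableAt (by simp)).hasFDerivAt
  have h2 : HasFDerivAt g (fderiv ℝ g (cc Fl y)) (cc Fl y) :=
    (hg.differentiable (by simp) _).hasFDerivAt
  have h3 := h2.comp y h1
  have h4 : (g ∘ cc Fl) =ᶠ[𝓝 y] h := key.mono fun v hv => by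
    show φ (G (cc Fl v)) = φ (H v)
    rw [hv]
  have h5 := (h3.congr_of_eventuallyEq h4.symm).unique (hh.differentiable (by simp) y).hasFDerivAt
  have h6 := hHi y hy
  rw [← h5] at h6
  exact Injective.of_comp (f := fderiv ℝ g (cc Fl y)) h6

end Pool.Agent.H27.Tgt
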