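import Mathlib

/-! Second derivatives depending on parameters. -/

set_option autoImplicit false
set_option linter.unusedSectionVars false

open scoped Topology ContDiff RealInnerProductSpace
open Set Metric Filter Function

noncomputable section

namespace Pool.Agent.H27.Tgt

variable {X : Type} [NormedAddCommGroup X] [NormedSpace ℝ X]

theorem convex_param {Ξ : X × ℝ → ℝ} {p₀ : X} (hΞ : ContDiffAt ℝ ∞ Ξ (p₀, 0))
    (h2 : 0 < deriv (deriv (fun s => Ξ (p₀, s))) 0) :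
    ∀ᶠ p in 𝓝 p₀, ∀ ε > 0, ∃ s, |s| < ε ∧ Ξ (p, 0) < Ξ (p, s) := by
  set D₁ : X × ℝ → ℝ := fun x => fderiv ℝ Ξ x (0, 1) with hD₁
  set D₂ : X × ℝ → ℝ := fun x => fderiv ℝ D₁ x (0, 1) with hD₂
  have hD₁s : ContDiffAt ℝ ∞ D₁ (p₀, 0) := (hΞ.fderiv_right (m := ∞) (by simp)).clm_apply
    contDiffAt_const
  have hD₂s : ContDiffAt ℝ ∞ D₂ (p₀, 0) := (hD₁s.fderiv_right (m := ∞) (by simp)).clm_apply
    contDiffAt_const
  have e1 : ∀ᶠ x in 𝓝 (p₀, (0:ℝ)), ContDiffAt ℝ 1 Ξ x :=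
    (hΞ.of_le (by simp : (1 : WithTop ℕ∞) ≤ ∞)).eventually (by simp)
  have e2 : ∀ᶠ x in 𝓝 (p₀, (0:ℝ)), ContDiffAt ℝ 1 D₁ x :=
    (hD₁s.of_le (by simp : (1 : WithTop ℕ∞) ≤ ∞)).eventually (by simp)
  have hline : ∀ (p : X) (s : ℝ), HasDerivAt (fun s : ℝ => (p, s)) ((0:X), (1:ℝ)) s := fun p s =>
    (hasDerivAt_const s p).prodMk (hasDerivAt_id s)
  have hd1 : ∀ (p : X) (s : ℝ), ContDiffAt ℝ 1 Ξ (p, s) →
      HasDerivAt (fun s => Ξ (p, s)) (D₁ (p, s)) s := fun p s h =>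
    (h.differentiableAt (by simp)).hasFDerivAt.comp_hasDerivAt s (hline p s)
  have hd2 : ∀ (p : X) (s : ℝ), ContDiffAt ℝ 1 D₁ (p, s) →
      HasDerivAt (fun s => D₁ (p, s)) (D₂ (p, s)) s := fun p s h =>
    (h.differentiableAt (by simp)).hasFDerivAt.comp_hasDerivAt s (hline p s)
  have hdd : ∀ (p : X) (s : ℝ), (∀ᶠ x in 𝓝 (p, s), ContDiffAt ℝ 1 Ξ x) → ContDiffAt ℝ 1 D₁ (p, s) →
      deriv (deriv (fun s => Ξ (p, s))) s = D₂ (p, s) := by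
    intro p s h1 h3
    have h4 : deriv (fun s => Ξ (p, s)) =ᶠ[𝓝 s] fun s => D₁ (p, s) := by
      have h5 : ContinuousAt (fun s : ℝ => (p, s)) s := by fun_prop
      filter_upwards [h5.eventually h1] with s' hs'
      exact (hd1 p s' hs').deriv
    rw [h4.deriv_eq]
    exact (hd2 p s h3).deriv
  have hpos : 0 < D₂ (p₀, 0) := by
    rw [← hdd p₀ 0 e1 e2.self_of_nhds]
    exact h2
  have e3 : ∀ᶠ x in 𝓝 (p₀, (0:ℝ)), 0 < D₂ x := hD₂s.continuousAt.eventually_const_lt hpos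
  have e4 : ∀ᶠ x in 𝓝 (p₀, (0:ℝ)), (∀ᶠ x' in 𝓝 x, ContDiffAt ℝ 1 Ξ x') ∧ ContDiffAt ℝ 1 D₁ x ∧
      0 < D₂ x := (eventually_eventually_nhds.2 e1).and (e2.and e3)
  rw [nhds_prod_eq, eventually_prod_iff] at e4
  obtain ⟨P, hP, S, hS, hPS⟩ := e4
  obtain ⟨δ, hδ, hδS⟩ := Metric.eventually_nhds_iff.1 hS
  filter_upwards [hP] with p hp ε hε
  have hin : ∀ s ∈ Ioo (-δ) δ, (∀ᶠ x' in 𝓝 (p, s), ContDiffAt ℝ 1 Ξ x') ∧
      ContDiffAt ℝ 1 D₁ (p, s) ∧ 0 < D₂ (p, s) := by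
    intro s hs
    refine hPS hp (hδS ?_)
    rw [Real.dist_eq, sub_zero, abs_lt]
    exact ⟨hs.1, hs.2⟩
  have hconv : StrictConvexOn ℝ (Ioo (-δ) δ) (fun s => Ξ (p, s)) := by
    apply strictConvexOn_of_deriv2_pos' (convex_Ioo _ _)
    · intro s hs
      exact (hd1 p s (hin s hs).1.self_of_nhds).continuousAt.continuousWithinAt
    · intro s hs
      have h3 := hin s hs
      have h4 : (deriv^[2] fun s => Ξ (p, s)) s = deriv (deriv (fun s => Ξ (p, s))) s := rfl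
      rw [h4, hdd p s h3.1 h3.2.1]
      exact h3.2.2
  set s₀ : ℝ := min (δ / 2) (ε / 2) with hs₀
  have hs₀0 : 0 < s₀ := lt_min (by linarith) (by linarith)
  have hs₀δ : s₀ < δ := (min_le_left _ _).trans_lt (by linarith)
  have hs₀ε : s₀ < ε := (min_le_right _ _).trans_lt (by linarith)
  have hs1 : -s₀ ∈ Ioo (-δ) δ := ⟨by linarith, by linarith⟩
  have hs2 : s₀ ∈ Ioo (-δ) δ := ⟨by linarith, hs₀δ⟩
  have h5 := hconv.2 hs1 hs2 (fun h => by linarith) (show (0:ℝ) < 1 / 2 by norm_num)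
    (show (0:ℝ) < 1 / 2 by norm_num) (by norm_num)
  simp only [smul_eq_mul] at h5
  have h6 : (1:ℝ) / 2 * -s₀ + 1 / 2 * s₀ = 0 := by ring
  rw [h6] at h5
  rcases lt_or_ge (Ξ (p, 0)) (Ξ (p, s₀)) with h7 | h7
  · exact ⟨s₀, by rw [abs_of_pos hs₀0]; exact hs₀ε, h7⟩
  · refine ⟨-s₀, by rw [abs_neg, abs_of_pos hs₀0]; exact hs₀ε, ?_⟩
    linarith

variable {E : Type} [NormedAddCommGroup E] [InnerProductSpace ℝ E]

/-- `ψ` moves some points near `y`, of larger norm than `y`, to points of larger norm -/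
def Pr (ψ : ℝ × E → E) (t : ℝ) (y : E) : Prop :=
  ∀ S ∈ 𝓝 y, ∃ u ∈ S, ‖y‖ < ‖u‖ ∧ ‖y‖ < ‖ψ (t, u)‖

lemma lt_of_hasDerivAt {f : ℝ → ℝ} {f' : ℝ} (hf : HasDerivAt f f' 0) (h : 0 < f') :
    ∀ᶠ s in 𝓝[>] 0, f 0 < f s := by
  have h2 : ∀ᶠ s : ℝ in 𝓝[>] 0, 0 < slope f 0 s :=
    ((hasDerivWithinAt_iff_tendsto_slope' (lt_irrefl (0:ℝ))).1 hf.hasDerivWithinAt).eventually_const_lt
      h
  filter_upwards [h2, self_mem_nhdsWithin] with s h3 h4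
  have h4' : (0:ℝ) < s := h4
  rw [slope_def_field, sub_zero] at h3
  have := (div_pos_iff_of_pos_right h4').1 h3
  linarith

/-- first order -/
theorem Pr_of_first {ψ : ℝ × E → E} {t₀ : ℝ} {z : E} (hψ : ContDiffAt ℝ ∞ ψ (t₀, z)) {v : E}
    (hv : 0 < ⟪z, v⟫) (hw : 0 < ⟪ψ (t₀, z), fderiv ℝ ψ (t₀, z) (0, v)⟫) :
    ∀ᶠ p in 𝓝 (t₀, z), ‖ψ p‖ = ‖p.2‖ → Pr ψ p.1 p.2 := by
  have e1 : ∀ᶠ x in 𝓝 (t₀, z), ContDiffAt ℝ 1 ψ x :=
    (hψ.of_le (by simp : (1 : WithTop ℕ∞) ≤ ∞)).eventually (by simp)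
  have e2 : ∀ᶠ x : ℝ × E in 𝓝 (t₀, z), 0 < ⟪x.2, v⟫ := by
    have : ContinuousAt (fun x : ℝ × E => ⟪x.2, v⟫) (t₀, z) := by fun_prop
    exact this.eventually_const_lt hv
  have e3 : ∀ᶠ x : ℝ × E in 𝓝 (t₀, z), 0 < ⟪ψ x, fderiv ℝ ψ x (0, v)⟫ := by
    have h1 : ContinuousAt (fun x : ℝ × E => fderiv ℝ ψ x (0, v)) (t₀, z) :=
      ((hψ.fderiv_right (m := ∞) (by simp)).clm_apply contDiffAt_const).continuousAt
    have : ContinuousAt (fun x : ℝ × E => ⟪ψ x, fderiv ℝ ψ x (0, v)⟫) (t₀, z) :=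
      hψ.continuousAt.inner h1
    exact this.eventually_const_lt hw
  filter_upwards [e1, e2, e3] with p h1 h2 h3 hn S hS
  obtain ⟨t, y⟩ := p
  simp only at h1 h2 h3 hn ⊢
  have hc : HasDerivAt (fun s : ℝ => y + s • v) v 0 := by
    have := ((hasDerivAt_id (0:ℝ)).smul_const v).const_add y
    simpa using this
  have hc' : HasDerivAt (fun s : ℝ => (t, y + s • v)) ((0:ℝ), v) 0 :=
    (hasDerivAt_const 0 t).prodMk hc
  have h4 : HasDerivAt (fun s : ℝ => ‖y + s • v‖ ^ 2) (2 * ⟪y, v⟫) 0 := by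
    have := hc.norm_sq
    simpa using this
  have h5 : HasDerivAt (fun s : ℝ => ψ (t, y + s • v)) (fderiv ℝ ψ (t, y) (0, v)) 0 := by
    have h6 : HasFDerivAt ψ (fderiv ℝ ψ (t, y)) (t, y + (0:ℝ) • v) := by
      rw [zero_smul, add_zero]
      exact (h1.differentiableAt (by simp)).hasFDerivAt
    exact h6.comp_hasDerivAt (0:ℝ) hc'
  have h6 : HasDerivAt (fun s : ℝ => ‖ψ (t, y + s • v)‖ ^ 2)
      (2 * ⟪ψ (t, y), fderiv ℝ ψ (t, y) (0, v)⟫) 0 := by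
    have := h5.norm_sq
    simpa using this
  have h7 := lt_of_hasDerivAt h4 (by positivity)
  have h8 := lt_of_hasDerivAt h6 (by positivity)
  have h9 : ∀ᶠ s : ℝ in 𝓝[>] 0, y + s • v ∈ S := by
    have h10 : Tendsto (fun s : ℝ => y + s • v) (𝓝 0) (𝓝 y) := by
      have : Continuous (fun s : ℝ => y + s • v) := by fun_prop
      have := this.tendsto 0
      simpa using this
    exact (h10.mono_left nhdsWithin_le_nhds).eventually hS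
  obtain ⟨s, hs1, hs2, hs3⟩ := (h7.and (h8.and h9)).exists
  simp only [zero_smul, add_zero] at hs1 hs2
  rw [hn] at hs2
  exact ⟨y + s • v, hs3, lt_of_pow_lt_pow_left₀ 2 (norm_nonneg _) hs1,
    lt_of_pow_lt_pow_left₀ 2 (norm_nonneg _) hs2⟩

/-- the curves through `y` -/
def gam (α : ℝ → E) (z y : E) (s : ℝ) : E :=
  (‖y‖ / ‖α s + (‖y‖⁻¹ • y - z)‖) • (α s + (‖y‖⁻¹ • y - z))

/-- second order -/
theorem Pr_of_second {ψ : ℝ × E → E} {t₀ : ℝ} {z : E} (hψ : ContDiffAt ℝ ∞ ψ (t₀, z))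
    (hz : ‖z‖ = 1) {α : ℝ → E} (hα : ContDiffAt ℝ ∞ α 0) (hα0 : α 0 = z)
    (hα1 : ∀ᶠ s in 𝓝 0, ‖α s‖ = 1)
    (h2 : 0 < deriv (deriv (fun s => ‖ψ (t₀, α s)‖ ^ 2)) 0) :
    ∀ᶠ p in 𝓝 (t₀, z), ‖ψ p‖ = ‖p.2‖ → Pr ψ p.1 p.2 := by
  have hz0 : z ≠ 0 := by
    rintro rfl
    rw [norm_zero] at hz
    exact zero_ne_one hz
  -- the curves
  set Γ : (ℝ × E) × ℝ → E := fun x => gam α z x.1.2 x.2 with hΓ
  have hin : ContDiffAt ℝ ∞ (fun x : (ℝ × E) × ℝ => α x.2 + (‖x.1.2‖⁻¹ • x.1.2 - z))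
      ((t₀, z), 0) := by
    have h1 : ContDiffAt ℝ ∞ (fun x : (ℝ × E) × ℝ => α x.2) ((t₀, z), 0) :=
      ContDiffAt.comp ((t₀, z), (0:ℝ)) hα contDiffAt_snd
    have h3 : ContDiffAt ℝ ∞ (fun x : (ℝ × E) × ℝ => x.1.2) ((t₀, z), 0) :=
      contDiffAt_snd.comp _ contDiffAt_fst
    have h4 : ContDiffAt ℝ ∞ (fun x : (ℝ × E) × ℝ => ‖x.1.2‖⁻¹) ((t₀, z), 0) :=
      (h3.norm ℝ hz0).inv (norm_ne_zero_iff.2 hz0)
    exact h1.add ((h4.smul h3).sub contDiffAt_const)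
  have hval : α 0 + (‖z‖⁻¹ • z - z) = z := by
    rw [hα0, hz, inv_one, one_smul, sub_self, add_zero]
  have hΓs : ContDiffAt ℝ ∞ Γ ((t₀, z), 0) := by
    have h3 : ContDiffAt ℝ ∞ (fun x : (ℝ × E) × ℝ => x.1.2) ((t₀, z), 0) :=
      contDiffAt_snd.comp _ contDiffAt_fst
    have h5 : (fun x : (ℝ × E) × ℝ => α x.2 + (‖x.1.2‖⁻¹ • x.1.2 - z)) ((t₀, z), 0) ≠ 0 := by
      show α 0 + (‖z‖⁻¹ • z - z) ≠ 0
      rw [hval]
      exact hz0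
    have h4 : ContDiffAt ℝ ∞ (fun x : (ℝ × E) × ℝ =>
        ‖x.1.2‖ / ‖α x.2 + (‖x.1.2‖⁻¹ • x.1.2 - z)‖) ((t₀, z), 0) :=
      (h3.norm ℝ hz0).div (hin.norm ℝ h5) (norm_ne_zero_iff.2 h5)
    exact h4.smul hin
  have hΓ0 : Γ ((t₀, z), 0) = z := by
    show (‖z‖ / ‖α 0 + (‖z‖⁻¹ • z - z)‖) • (α 0 + (‖z‖⁻¹ • z - z)) = z
    rw [hval, hz, div_one, one_smul]
  set Ξ : (ℝ × E) × ℝ → ℝ := fun x => ‖ψ (x.1.1, Γ x)‖ ^ 2 with hΞ
  have hpair : ContDiffAt ℝ ∞ (fun x : (ℝ × E) × ℝ => (x.1.1, Γ x)) ((t₀, z), 0) :=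
    (contDiffAt_fst.comp _ contDiffAt_fst).prodMk hΓs
  have hψΓ : ContDiffAt ℝ ∞ (fun x : (ℝ × E) × ℝ => ψ (x.1.1, Γ x)) ((t₀, z), 0) :=
    ContDiffAt.comp (g := ψ) (f := fun x : (ℝ × E) × ℝ => (x.1.1, Γ x)) ((t₀, z), (0:ℝ))
      (by rw [hΓ0]; exact hψ) hpair
  have hΞs : ContDiffAt ℝ ∞ Ξ ((t₀, z), 0) := hψΓ.norm_sq ℝ
  have hΞ2 : 0 < deriv (deriv (fun s => Ξ ((t₀, z), s))) 0 := by
    have h3 : (fun s => Ξ ((t₀, z), s)) =ᶠ[𝓝 0] fun s => ‖ψ (t₀, α s)‖ ^ 2 := by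
      filter_upwards [hα1] with s hs
      have h4 : Γ ((t₀, z), s) = α s := by
        show (‖z‖ / ‖α s + (‖z‖⁻¹ • z - z)‖) • (α s + (‖z‖⁻¹ • z - z)) = α s
        rw [hz, inv_one, one_smul, sub_self, add_zero, hs, div_one, one_smul]
      show ‖ψ (t₀, Γ ((t₀, z), s))‖ ^ 2 = _
      rw [h4]
    rw [h3.deriv.deriv_eq]
    exact h2
  have e1 := convex_param hΞs hΞ2
  have e2 : ∀ᶠ x in 𝓝 (t₀, z), ContDiffAt ℝ 1 ψ x :=
    (hψ.of_le (by simp : (1 : WithTop ℕ∞) ≤ ∞)).eventually (by simp)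
  have e3 : ∀ᶠ x : (ℝ × E) × ℝ in 𝓝 ((t₀, z), 0), ContDiffAt ℝ 1 Γ x :=
    (hΓs.of_le (by simp : (1 : WithTop ℕ∞) ≤ ∞)).eventually (by simp)
  have e4 : ∀ᶠ p : ℝ × E in 𝓝 (t₀, z), ContDiffAt ℝ 1 Γ (p, 0) := by
    have h3 : Tendsto (fun p : ℝ × E => (p, (0:ℝ))) (𝓝 (t₀, z)) (𝓝 ((t₀, z), 0)) := by
      have : Continuous (fun p : ℝ × E => (p, (0:ℝ))) := by fun_prop
      exact this.tendsto (t₀, z)
    exact h3.eventually e3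
  have e5 : ∀ᶠ p : ℝ × E in 𝓝 (t₀, z), p.2 ≠ 0 := by
    have : ContinuousAt (fun p : ℝ × E => p.2) (t₀, z) := by fun_prop
    exact this.eventually_ne hz0
  filter_upwards [e1, eventually_eventually_nhds.2 e2, e4, e5] with p h3 h4 h5 h6 hn S hS
  obtain ⟨t, y⟩ := p
  simp only at h3 h4 h5 h6 hn ⊢
  have hy0 : 0 < ‖y‖ := norm_pos_iff.2 h6
  have hy1 : ‖‖y‖⁻¹ • y‖ = 1 := by rw [norm_smul, norm_inv, norm_norm, inv_mul_cancel₀ hy0.ne']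
  have hΓy : Γ ((t, y), 0) = y := by
    show (‖y‖ / ‖α 0 + (‖y‖⁻¹ • y - z)‖) • (α 0 + (‖y‖⁻¹ • y - z)) = y
    rw [hα0, add_sub_cancel, hy1, div_one, smul_smul, mul_inv_cancel₀ hy0.ne', one_smul]
  have hcont : ContinuousAt (fun s : ℝ => Γ ((t, y), s)) 0 :=
    ContinuousAt.comp (g := Γ) (f := fun s : ℝ => ((t, y), s)) h5.continuousAt (by fun_prop)
  -- the good points
  have hgood : ∀ᶠ u in 𝓝 y, (∀ᶠ u' in 𝓝 u, u' ∈ S) ∧ ContinuousAt (fun u => ψ (t, u)) u := by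
    have h7 : ∀ᶠ u in 𝓝 y, ContDiffAt ℝ 1 ψ (t, u) := by
      have : ContinuousAt (fun u : E => (t, u)) y := by fun_prop
      exact this.eventually h4
    filter_upwards [eventually_eventually_nhds.2 hS, h7] with u h8 h9
    exact ⟨h8, ContinuousAt.comp (g := ψ) (f := fun u : E => (t, u)) h9.continuousAt (by fun_prop)⟩
  have hne : ∀ᶠ s in 𝓝 (0:ℝ), Γ ((t, y), s) ≠ 0 := hcont.eventually_ne (by rw [hΓy]; exact h6)
  have hg2 : ∀ᶠ s in 𝓝 (0:ℝ), (∀ᶠ u' in 𝓝 (Γ ((t, y), s)), u' ∈ S) ∧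
      ContinuousAt (fun u => ψ (t, u)) (Γ ((t, y), s)) := by
    have : Tendsto (fun s : ℝ => Γ ((t, y), s)) (𝓝 0) (𝓝 y) := by
      have := hcont.tendsto
      rwa [hΓy] at this
    exact this.eventually hgood
  obtain ⟨ε, hε, hεs⟩ := Metric.eventually_nhds_iff.1 (hne.and hg2)
  obtain ⟨s, hs, hs2⟩ := h3 ε hε
  obtain ⟨g0, g1, g2⟩ := hεs (by rw [Real.dist_eq, sub_zero]; exact hs)
  set u : E := Γ ((t, y), s) with hu
  have hun : ‖u‖ = ‖y‖ := by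
    have h7 : u = (‖y‖ / ‖α s + (‖y‖⁻¹ • y - z)‖) • (α s + (‖y‖⁻¹ • y - z)) := rfl
    have h8 : ‖α s + (‖y‖⁻¹ • y - z)‖ ≠ 0 := by
      intro h9
      rw [h9, div_zero, zero_smul] at h7
      exact g0 h7
    rw [h7, norm_smul, norm_div, norm_norm, norm_norm, div_mul_cancel₀ _ h8]
  have hs3 : ‖y‖ < ‖ψ (t, u)‖ := by
    have h7 : ‖ψ (t, Γ ((t, y), 0))‖ ^ 2 < ‖ψ (t, u)‖ ^ 2 := hs2
    rw [hΓy, hn] at h7
    exact lt_of_pow_lt_pow_left₀ 2 (norm_nonneg _) h7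
  have hlim : Tendsto (fun η : ℝ => (1 + η) • u) (𝓝[>] 0) (𝓝 u) := by
    have : Continuous (fun η : ℝ => (1 + η) • u) := by fun_prop
    have h7 := this.tendsto 0
    simp only [add_zero, one_smul] at h7
    exact h7.mono_left nhdsWithin_le_nhds
  have h8 : ∀ᶠ η : ℝ in 𝓝[>] 0, ‖y‖ < ‖ψ (t, (1 + η) • u)‖ :=
    (g2.norm.tendsto.comp hlim).eventually_const_lt hs3
  obtain ⟨η, hη1, hη2, hη3⟩ := (h8.and ((hlim.eventually g1).and self_mem_nhdsWithin)).exists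
  have hη3' : (0:ℝ) < η := hη3
  refine ⟨(1 + η) • u, hη2, ?_, hη1⟩
  rw [norm_smul, hun, Real.norm_eq_abs, abs_of_pos (by linarith)]
  nlinarith

end Pool.Agent.H27.Tgt
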