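import Pool.Agent.H27.Tgt.Step
import Pool.Graph.R_pool_sql_team_seeded_620a6dc7.H865_small.Chart
import Pool.Graph.R_pool_sql_team_seeded_843ab51a.V1127.Cm.TorusS

/-! Local diffeomorphisms of a manifold minus balls which extend over the balls. -/

set_option autoImplicit false
set_option linter.unusedSectionVars false

open scoped Topology ContDiff Manifold RealInnerProductSpace
open Set Metric Filter Function Pool.Agent.H27.Sch
open Pool.Agent.Y522 (LD)

noncomputable section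

namespace Pool.Agent.H27.Tgt

/-- `ℝⁿ` -/
abbrev EU (n : ℕ) : Type := EuclideanSpace ℝ (Fin n)

variable {n : ℕ} {m : ℕ}

/-- inverse function theorem for maps to a manifold which is immersed -/
theorem LD_of_fd {X : Type} [TopologicalSpace X] [ChartedSpace (EU n) X] [IsManifold (𝓡 n) ∞ X]
    {φ : X → EU m} (hφ : ContMDiff (𝓡 n) (𝓡 m) ∞ φ) {G : EU n → X}
    (hG : ContMDiff (𝓡 n) (𝓡 n) ∞ G) {z : EU n}
    (hz : Injective (fderiv ℝ (fun x => φ (G x)) z)) : LD n G z := by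
  obtain ⟨B, hB0, hBi, hBL⟩ := H865_small.exists_chartB (n := n) (G z)
  obtain ⟨p, hp, hp0, hp1, hp2⟩ := Y522.LD.exists_inverse (hBL 0)
  rw [hB0] at hp hp0 hp2
  set c : EU n → EU n := fun x => p (G x) with hc
  have hcs : ∀ᶠ x in 𝓝 z, ContDiffAt ℝ ∞ c x := by
    have h1 : ∀ᶠ y in 𝓝 (G z), LD n p y := Y522.LD.eventually hp
    filter_upwards [hG.continuous.continuousAt.eventually h1] with x hx
    exact contMDiffAt_iff_contDiffAt.1 (ContMDiffAt.comp x (Y522.LD.contMDiffAt hx) hG.contMDiffAt)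
  have hgB : ContDiff ℝ ∞ (fun w : EU n => φ (B w)) := by
    have h1 : ContMDiff (𝓡 n) (𝓡 n) ∞ B := fun w => Y522.LD.contMDiffAt (hBL w)
    exact contMDiff_iff_contDiff.1 (hφ.comp h1)
  have hGB : ∀ᶠ x in 𝓝 z, G x = B (c x) := by
    filter_upwards [hG.continuous.continuousAt.eventually hp2] with x hx
    exact hx.symm
  have h1 : (fun x => φ (G x)) =ᶠ[𝓝 z] (fun w : EU n => φ (B w)) ∘ c := hGB.mono fun x hx => by
    show φ (G x) = φ (B (c x))
    rw [← hx]
  have hcz : DifferentiableAt ℝ c z := hcs.self_of_nhds.differentiableAt (by simp)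
  rw [h1.fderiv_eq, fderiv_comp z (hgB.differentiable (by simp) _) hcz] at hz
  have h2 : Injective (fderiv ℝ c z) := Injective.of_comp (f := fderiv ℝ (fun w : EU n => φ (B w))
    (c z)) hz
  have h3 : LD n c z := H865_small.LD_of_inj hcs fun v hv h0 => by
    have h4 : v = 0 := h2 (h0.trans (map_zero _).symm)
    rw [h4, norm_zero] at hv
    exact zero_ne_one hv
  exact (Y522.LD.comp_fun (hBL _) h3).congr hGB

section W

variable {EW : Type} [NormedAddCommGroup EW] [NormedSpace ℝ EW] [FiniteDimensional ℝ EW]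
  {HW : Type} [TopologicalSpace HW] {I : ModelWithCorners ℝ EW HW} [I.Boundaryless]
variable {W : Type} [TopologicalSpace W] [ChartedSpace HW W] [IsManifold I ∞ W]

theorem fd_eq {φ : W → EU m} (hφ : ContMDiff I (𝓡 m) ∞ φ) {G : EU n → W}
    (hG : ContMDiff (𝓡 n) I ∞ G) (x v : EU n) :
    fderiv ℝ (fun x => φ (G x)) x v =
      (mfderiv I (𝓡 m) φ (G x) : EW →L[ℝ] EU m) ((mfderiv (𝓡 n) I G x : EU n →L[ℝ] EW) v) := by
  have h1 : mfderiv (𝓡 n) (𝓡 m) (φ ∘ G) x =
      (mfderiv I (𝓡 m) φ (G x)).comp (mfderiv (𝓡 n) I G x) :=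
    mfderiv_comp x (hφ.mdifferentiable (by simp) _) (hG.mdifferentiable (by simp) _)
  rw [mfderiv_eq_fderiv] at h1
  exact DFunLike.congr_fun h1 v

/-- a regular homotopy of the unit sphere, with values in `W` -/
structure Reg (I : ModelWithCorners ℝ EW HW) (F : ℝ → EU n → W) : Prop where
  smooth : ContMDiff 𝓘(ℝ, ℝ × EU n) I ∞ (fun p : ℝ × EU n => F p.1 p.2)
  imm : ∀ t ∈ Icc (0:ℝ) 1, ∀ x, ‖x‖ = 1 → Injective (mfderiv (𝓡 n) I (F t) x)
  start : ∀ x, ‖x‖ ≤ 1 → Injective (mfderiv (𝓡 n) I (F 0) x)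
  tan : ∀ t ∈ Icc (0:ℝ) 1, ∀ x y, ‖x‖ = 1 → ‖y‖ = 1 → x ≠ y → F t x = F t y →
    ∃ α β : ℝ → EU n, ContDiffAt ℝ ∞ α 0 ∧ ContDiffAt ℝ ∞ β 0 ∧ α 0 = x ∧ β 0 = y ∧
      (∀ᶠ s in 𝓝 0, F t (α s) = F t (β s)) ∧
      ((0 < deriv (fun s => ‖α s‖ ^ 2) 0 ∧ 0 < deriv (fun s => ‖β s‖ ^ 2) 0) ∨
        (∀ᶠ s in 𝓝 0, ‖α s‖ = 1) ∧ 0 < deriv (deriv (fun s => ‖β s‖ ^ 2)) 0)

variable [T2Space W]

/-- the immersed ball at the end of the homotopy, composed with a map to a closed manifold -/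
theorem end_ball {X : Type} [TopologicalSpace X] [ChartedSpace (EU n) X] [IsManifold (𝓡 n) ∞ X]
    [T2Space X] [CompactSpace X] {π : W → X} (hπ : ContMDiff I (𝓡 n) ∞ π)
    (hπi : ∀ w, Injective (mfderiv I (𝓡 n) π w)) (hdim : Module.finrank ℝ EW = n)
    {F : ℝ → EU n → W} (hF : Reg I F) :
    ∃ Q : EU n → X, (∀ x, ‖x‖ ≤ 1 → LD n Q x) ∧ ∃ a > 0, ∀ x, |‖x‖ - 1| < a → Q x = π (F 1 x) := by
  obtain ⟨m, e, he, -, hei⟩ := exists_embedding_euclidean_of_compact (I := 𝓡 n) (M := X)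
  set φ : W → EU m := fun w => e (π w) with hφd
  have hφ : ContMDiff I (𝓡 m) ∞ φ := he.comp hπ
  have hφi : ∀ w, Injective (mfderiv I (𝓡 m) φ w) := by
    intro w
    have h1 : mfderiv I (𝓡 m) (e ∘ π) w = (mfderiv (𝓡 n) (𝓡 m) e (π w)).comp
        (mfderiv I (𝓡 n) π w) :=
      mfderiv_comp w (he.mdifferentiable (by simp) _) (hπ.mdifferentiable (by simp) _)
    have h2 : mfderiv I (𝓡 m) φ w = (mfderiv (𝓡 n) (𝓡 m) e (π w)).comp
        (mfderiv I (𝓡 n) π w) := h1
    rw [h2]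
    exact (hei (π w)).comp (hπi w)
  have hdim' : Module.finrank ℝ EW = Module.finrank ℝ (EU n) := by
    rw [hdim, finrank_euclideanSpace, Fintype.card_fin]
  have hFt := FW_smooth hF.smooth
  have hinj : ∀ (t : ℝ) (x : EU n), Injective (mfderiv (𝓡 n) I (F t) x) →
      Injective (fderiv ℝ (fun x => φ (F t x)) x) := by
    intro t x h a b hab
    rw [fd_eq hφ (hFt t), fd_eq hφ (hFt t)] at hab
    exact h (hφi _ hab)
  have hR : RHW φ F := by
    refine ⟨hF.smooth.continuous, contMDiff_iff_contDiff.1 (hφ.comp hF.smooth),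
      fun t ht x hx => hinj t x (hF.imm t ht x hx),
      fun t ht x y hx hy hxy => trans_mfd hφ hdim' hF.smooth (hinj t y (hF.imm t ht y hy)) hxy, ?_⟩
    intro t ht x y hx hy hxy he
    obtain ⟨α, β, hα, hβ, hα0, hβ0, hαβ, h2⟩ := hF.tan t ht x y hx hy hxy he
    have hα' : HasDerivAt α (deriv α 0) 0 := (hα.differentiableAt (by simp)).hasDerivAt
    have hβ' : HasDerivAt β (deriv β 0) 0 := (hβ.differentiableAt (by simp)).hasDerivAt
    rcases h2 with ⟨h3, h4⟩ | ⟨h3, h4⟩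
    · refine Or.inl ⟨deriv α 0, deriv β 0, ?_, ?_, ?_⟩
      · have hs : ContDiff ℝ ∞ (fun x => φ (F t x)) := contMDiff_iff_contDiff.1 (hφ.comp (hFt t))
        have h5 : HasDerivAt (fun s => φ (F t (α s)))
            (fderiv ℝ (fun x => φ (F t x)) x (deriv α 0)) 0 := by
          have h6 : HasFDerivAt (fun x => φ (F t x)) (fderiv ℝ (fun x => φ (F t x)) x) (α 0) := by
            rw [hα0]
            exact (hs.differentiable (by simp) x).hasFDerivAt
          exact h6.comp_hasDerivAt (0:ℝ) hα'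
        have h7 : HasDerivAt (fun s => φ (F t (β s)))
            (fderiv ℝ (fun x => φ (F t x)) y (deriv β 0)) 0 := by
          have h6 : HasFDerivAt (fun x => φ (F t x)) (fderiv ℝ (fun x => φ (F t x)) y) (β 0) := by
            rw [hβ0]
            exact (hs.differentiable (by simp) y).hasFDerivAt
          exact h6.comp_hasDerivAt (0:ℝ) hβ'
        have h8 : (fun s => φ (F t (α s))) =ᶠ[𝓝 0] fun s => φ (F t (β s)) :=
          hαβ.mono fun s hs => by
            show φ (F t (α s)) = φ (F t (β s))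
            rw [hs]
        exact (h5.congr_of_eventuallyEq h8.symm).unique h7
      · rw [hα'.norm_sq.deriv, hα0] at h3
        linarith
      · rw [hβ'.norm_sq.deriv, hβ0] at h4
        linarith
    · exact Or.inr ⟨α, β, hα, hβ, hα0, hβ0, h3.and hαβ, h4⟩
  obtain ⟨G, hG, hGi, a, ha, -, haG⟩ := all_timesW hφ hdim' hF.smooth hR
    ⟨F 0, hFt 0, fun x hx => hinj 0 x (hF.start x hx), 1 / 2, by norm_num, by norm_num,
      fun _ _ => rfl⟩
  refine ⟨fun x => π (G x), fun x hx => LD_of_fd he (hπ.comp hG) (hGi x hx), a, ha,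
    fun x hx => ?_⟩
  show π (G x) = π (F 1 x)
  rw [haG x hx]

end W

section glue

variable {M X : Type} [TopologicalSpace M] [T2Space M] [ChartedSpace (EU n) M]
  [TopologicalSpace X] [ChartedSpace (EU n) X]

/-- gluing -/
theorem glue {ι : Type} [Finite ι] {β : ι → EU n → M} (hβ : ∀ i x, ‖x‖ ≤ 1 → LD n (β i) x)
    (hβi : ∀ i j x y, ‖x‖ ≤ 1 → ‖y‖ ≤ 1 → β i x = β j y → i = j ∧ x = y)
    {G : M → X} (hG : ∀ y, (∀ i x, ‖x‖ ≤ 1 → β i x ≠ y) → LD n G y)
    {Q : ι → EU n → X} (hQ : ∀ i x, ‖x‖ ≤ 1 → LD n (Q i) x)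
    (hGQ : ∀ i, ∃ a > 0, ∀ x, 1 < ‖x‖ → ‖x‖ < 1 + a → G (β i x) = Q i x) :
    ∃ p : M → X, (∀ y, LD n p y) ∧ ∀ y, (∀ i x, ‖x‖ ≤ 1 → β i x ≠ y) → p y = G y := by
  classical
  have hβc : ∀ i, ContinuousOn (β i) (closedBall 0 1) := fun i x hx =>
    (Y522.LD.continuousAt (hβ i x (by simpa using hx))).continuousWithinAt
  set p : M → X := fun y => if h : ∃ q : ι × EU n, ‖q.2‖ ≤ 1 ∧ β q.1 q.2 = y then
    Q h.choose.1 h.choose.2 else G y with hp
  have hp1 : ∀ i x, ‖x‖ ≤ 1 → p (β i x) = Q i x := by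
    intro i x hx
    have h : ∃ q : ι × EU n, ‖q.2‖ ≤ 1 ∧ β q.1 q.2 = β i x := ⟨(i, x), hx, rfl⟩
    have h1 := hβi _ _ _ _ h.choose_spec.1 hx h.choose_spec.2
    simp only [hp]
    rw [dif_pos h, h1.1, h1.2]
  have hp2 : ∀ y, (∀ i x, ‖x‖ ≤ 1 → β i x ≠ y) → p y = G y := by
    intro y hy
    simp only [hp]
    rw [dif_neg]
    rintro ⟨q, hq1, hq2⟩
    exact hy q.1 q.2 hq1 hq2
  -- points near a given one
  have hnear : ∀ (y : M) (S : ι → Set (EU n)), (∀ i, IsOpen (S i)) →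
      (∀ i x, ‖x‖ ≤ 1 → β i x = y → x ∈ S i) →
      ∀ᶠ z in 𝓝 y, ∀ i x, ‖x‖ ≤ 1 → β i x = z → x ∈ S i := by
    intro y S hS hyS
    have h1 : ∀ i, ∀ᶠ z in 𝓝 y, ∀ x, ‖x‖ ≤ 1 → β i x = z → x ∈ S i := by
      intro i
      have hK : IsCompact (closedBall (0 : EU n) 1 \ S i) := (isCompact_closedBall 0 1).diff (hS i)
      have hK' : IsCompact (β i '' (closedBall (0 : EU n) 1 \ S i)) :=
        hK.image_of_continuousOn ((hβc i).mono sdiff_subset)
      have hy : y ∉ β i '' (closedBall (0 : EU n) 1 \ S i) := by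
        rintro ⟨x, hx, hxy⟩
        exact hx.2 (hyS i x (by simpa using hx.1) hxy)
      filter_upwards [hK'.isClosed.isOpen_compl.mem_nhds hy] with z hz x hx hxz
      by_contra hn
      exact hz ⟨x, ⟨by simpa using hx, hn⟩, hxz⟩
    rw [eventually_all] at *
    exact h1
  refine ⟨p, fun y => ?_, hp2⟩
  by_cases hy : ∃ i x, ‖x‖ ≤ 1 ∧ β i x = y
  · obtain ⟨i, x, hx, rfl⟩ := hy
    obtain ⟨q, hq, hq0, hq1, hq2⟩ := Y522.LD.exists_inverse (hβ i x hx)
    have hqc : Tendsto q (𝓝 (β i x)) (𝓝 x) := by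
      have := (Y522.LD.continuousAt hq).tendsto
      rwa [hq0] at this
    have hLD : LD n (fun z => Q i (q z)) (β i x) :=
      Y522.LD.comp_fun (by rw [hq0]; exact hQ i x hx) hq
    refine hLD.congr ?_
    rcases hx.lt_or_eq with hlt | heq
    · filter_upwards [hq2, hqc.norm.eventually_lt_const hlt] with z hz1 hz2
      have := hp1 i (q z) hz2.le
      rw [hz1] at this
      exact this
    · obtain ⟨a, ha, haG⟩ := hGQ i
      obtain ⟨U, hU, hUi⟩ := Y522.LD.eventually_injOn (hβ i x hx)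
      obtain ⟨U', hU'U, hU'o, hxU'⟩ := _root_.mem_nhds_iff.1 hU
      have h3 := hnear (β i x) (fun j => {w | j = i → w ∈ U'}) (fun j => by
        by_cases hj : j = i
        · simp only [hj, true_imp_iff]
          exact hU'o
        · simp only [hj, false_imp_iff]
          exact isOpen_univ) (fun j w hw hjw hji => by
            have h4 := hβi j i w x hw hx hjw
            rw [h4.2]
            exact hxU')
      have h5 : ∀ᶠ z in 𝓝 (β i x), ∀ j w, ‖w‖ ≤ 1 → β j w = z → j = i := by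
        have h6 : ∀ᶠ z in 𝓝 (β i x), ∀ j w, ‖w‖ ≤ 1 → β j w = z → w ∈ {w : EU n | j = i} := by
          refine hnear (β i x) (fun j => {w : EU n | j = i}) (fun j => ?_) (fun j w hw hjw => ?_)
          · exact isOpen_const
          · exact (hβi j i w x hw hx hjw).1
        exact h6
      filter_upwards [hq2, hqc.norm.eventually_lt_const (show ‖x‖ < 1 + a by rw [heq]; linarith),
        hqc.eventually (hU'o.mem_nhds hxU'), h3, h5] with z hz1 hz2 hz3 hz4 hz5
      rcases le_or_gt ‖q z‖ 1 with h6 | h6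
      · have := hp1 i (q z) h6
        rw [hz1] at this
        exact this
      · have h7 : ∀ j w, ‖w‖ ≤ 1 → β j w ≠ z := by
          intro j w hw hjw
          have h8 := hz5 j w hw hjw
          subst h8
          have h9 : w ∈ U' := hz4 j w hw hjw rfl
          have h10 : w = q z := hUi (hU'U h9) (hU'U hz3) (hjw.trans hz1.symm)
          rw [h10] at hw
          exact absurd hw (not_le.2 h6)
        rw [hp2 z h7]
        have := haG (q z) h6 hz2
        rw [hz1] at this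
        exact this
  · push Not at hy
    refine (hG y fun i x hx => hy i x hx).congr ?_
    have h1 := hnear y (fun _ => ∅) (fun _ => isOpen_empty) (fun i x hx hxy => hy i x hx hxy)
    filter_upwards [h1] with z hz
    exact hp2 z fun i x hx hxz => hz i x hx hxz

end glue

end Pool.Agent.H27.Tgt
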