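import Pool.Agent.H27.Tgt.Main

/-! Coverings which are surjective on the fundamental group at one base point. -/

set_option autoImplicit false
set_option linter.unusedSectionVars false

open Set Filter Topology Metric Function

noncomputable section

namespace Pool.Agent.H27.Tgt

theorem bij_of_pi_one {X Y : Type} [TopologicalSpace X] [TopologicalSpace Y] [T2Space X] [T2Space Y]
    [CompactSpace X] [PathConnectedSpace X] [ConnectedSpace Y] (f : C(X, Y))
    (hl : IsLocalHomeomorph f) (x₀ : X)
    (hp : ∀ γ : Path (f x₀) (f x₀), ∃ δ : Path x₀ x₀, (δ.map f.continuous).Homotopic γ) :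
    Bijective f := by
  have cov : IsCoveringMap f := isLocalHomeomorph_iff_isCoveringMap.1 hl
  constructor
  · intro a b hab
    obtain ⟨α⟩ := PathConnectedSpace.joined x₀ a
    obtain ⟨β⟩ := PathConnectedSpace.joined x₀ b
    let A : Path (f x₀) (f a) := α.map f.continuous
    let B : Path (f x₀) (f a) := (β.map f.continuous).cast rfl hab
    obtain ⟨δ, hδ⟩ := hp (B.trans A.symm)
    have h1 : ((δ.trans α).map f.continuous).Homotopic B := by
      have e1 : (δ.trans α).map f.continuous = (δ.map f.continuous).trans A :=
        Path.map_trans δ α f.continuous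
      rw [e1]
      have e2 : ((δ.map f.continuous).trans A).Homotopic ((B.trans A.symm).trans A) :=
        hδ.hcomp (Path.Homotopic.refl A)
      have e3 : ((B.trans A.symm).trans A).Homotopic (B.trans (A.symm.trans A)) :=
        ⟨Path.Homotopy.transAssoc _ _ _⟩
      have e4 : (A.symm.trans A).Homotopic (Path.refl _) :=
        ⟨(Path.Homotopy.reflSymmTrans A).symm⟩
      have e5 : (B.trans (A.symm.trans A)).Homotopic (B.trans (Path.refl _)) :=
        (Path.Homotopic.refl B).hcomp e4
      have e6 : (B.trans (Path.refl _)).Homotopic B := ⟨Path.Homotopy.transRefl B⟩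
      exact e2.trans (e3.trans (e5.trans e6))
    have h2 : ((δ.trans α : Path x₀ a) : C(unitInterval, X)).HomotopicRel
        (β : C(unitInterval, X)) {0, 1} := by
      rw [cov.homotopicRel_iff_comp ⟨0, by simp, by simp⟩]
      exact h1
    obtain ⟨G⟩ := h2
    have h3 : ((δ.trans α : Path x₀ a) : C(unitInterval, X)) 1 = (β : C(unitInterval, X)) 1 := by
      rw [← G.eq_fst 0 (x := 1) (by simp), ← G.eq_snd 0 (x := 1) (by simp)]
    simpa using h3
  · have hclopen : IsClopen (range f) := ⟨(isCompact_range f.continuous).isClosed,
      hl.isOpenMap.isOpen_range⟩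
    have h1 := hclopen.eq_univ ⟨f x₀, mem_range_self x₀⟩
    exact range_eq_univ.1 h1

/-- a covering is injective on the fundamental group -/
theorem pi_injective {X Y : Type} [TopologicalSpace X] [TopologicalSpace Y] {f : C(X, Y)}
    (cov : IsCoveringMap f) (x : X) : Injective (FundamentalGroup.map f x) := by
  intro a b hab
  induction a using Quotient.inductionOn with
  | _ γ =>
    induction b using Quotient.inductionOn with
    | _ δ =>
      have h1 : (γ.map f.continuous).Homotopic (δ.map f.continuous) := Quotient.exact hab
      have h2 : (γ : C(unitInterval, X)).HomotopicRel (δ : C(unitInterval, X)) {0, 1} := by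
        rw [cov.homotopicRel_iff_comp ⟨0, by simp, by simp⟩]
        exact h1
      exact Quotient.sound h2

/-- a covering between homeomorphic spaces is bijective if the fundamental group is co-Hopfian -/
theorem bij_of_coHopf {X Y : Type} [TopologicalSpace X] [TopologicalSpace Y] [T2Space X] [T2Space Y]
    [CompactSpace X] [PathConnectedSpace X] [PathConnectedSpace Y] (f : C(X, Y))
    (hl : IsLocalHomeomorph f) (h : Y ≃ₜ X)
    (hc : ∀ (y : Y) (φ : FundamentalGroup Y y →* FundamentalGroup Y y),
      Injective φ → Surjective φ) : Bijective f := by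
  have cov : IsCoveringMap f := isLocalHomeomorph_iff_isCoveringMap.1 hl
  obtain ⟨y₀⟩ : Nonempty Y := PathConnectedSpace.nonempty
  let H : C(Y, X) := ⟨h, h.continuous⟩
  let e := FundamentalGroup.fundamentalGroupMulEquivOfPath
    (PathConnectedSpace.somePath (f (H y₀)) y₀)
  have : CompactSpace Y := h.symm.compactSpace
  have hH : Injective (FundamentalGroup.map H y₀) := by
    have hc : IsCoveringMap H := isLocalHomeomorph_iff_isCoveringMap.1 h.isLocalHomeomorph
    exact pi_injective hc y₀
  let φ : FundamentalGroup Y y₀ →* FundamentalGroup Y y₀ :=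
    e.toMonoidHom.comp ((FundamentalGroup.map f (H y₀)).comp (FundamentalGroup.map H y₀))
  have hφ : Injective φ := by
    intro a b hab
    exact hH (pi_injective cov _ (e.injective hab))
  refine bij_of_pi_one f hl (H y₀) fun γ => ?_
  obtain ⟨u, hu⟩ := hc y₀ φ hφ (e (FundamentalGroup.fromPath ⟦γ⟧))
  have h1 : FundamentalGroup.map f (H y₀) (FundamentalGroup.map H y₀ u) =
      FundamentalGroup.fromPath ⟦γ⟧ := e.injective hu
  generalize FundamentalGroup.map H y₀ u = v at h1
  induction v using Quotient.inductionOn with
  | _ δ => exact ⟨δ, Quotient.exact h1⟩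

end Pool.Agent.H27.Tgt
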