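import Pool.Agent.H27.Tgt.Wid
import Pool.Agent.H27.Tgt.Curve
import Pool.Agent.H27.Sch.Hom

/-! Compactness along the homotopy, for maps to a manifold. -/

set_option autoImplicit false
set_option linter.unusedSectionVars false

open scoped Topology ContDiff Manifold RealInnerProductSpace
open Set Metric Filter Function Pool.Agent.H27.Sch

noncomputable section

namespace Pool.Agent.H27.Tgt

variable {E : Type} [NormedAddCommGroup E] [InnerProductSpace ℝ E] [FiniteDimensional ℝ E]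
  [CompleteSpace E]
variable {V : Type} [NormedAddCommGroup V] [InnerProductSpace ℝ V] [FiniteDimensional ℝ V]
  [CompleteSpace V]
variable {W : Type} [TopologicalSpace W]

/-- the partial differential -/
def DV (f : ℝ → E → V) (p : ℝ × E) : E →L[ℝ] V :=
  (fderiv ℝ (fun p : ℝ × E => f p.1 p.2) p).comp (ContinuousLinearMap.inr ℝ ℝ E)

section

variable {f : ℝ → E → V} (hf : ContDiff ℝ ∞ (fun p : ℝ × E => f p.1 p.2))
include hf

lemma DV_has (t : ℝ) (x : E) : HasFDerivAt (f t) (DV f (t, x)) x := by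
  have h1 : HasFDerivAt (fun p : ℝ × E => f p.1 p.2)
      (fderiv ℝ (fun p : ℝ × E => f p.1 p.2) (t, x)) (t, x) :=
    (hf.differentiable (by simp) _).hasFDerivAt
  have h2 : HasFDerivAt (fun x : E => (t, x)) (ContinuousLinearMap.inr ℝ ℝ E) x :=
    hasFDerivAt_prodMk_right t x
  exact h1.comp x h2

lemma DV_eq (t : ℝ) (x : E) : fderiv ℝ (f t) x = DV f (t, x) := (DV_has hf t x).fderiv

lemma DV_cont : Continuous (DV f) :=
  (hf.continuous_fderiv (by simp)).clm_comp continuous_const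

lemma f_smooth (t : ℝ) : ContDiff ℝ ∞ (f t) :=
  hf.comp (contDiff_const.prodMk contDiff_id)

lemma Phi_injV {t : ℝ} {x : E} (h : Injective (DV f (t, x))) :
    ∃ U ∈ 𝓝 (t, x), InjOn (fun p : ℝ × E => (p.1, f p.1 p.2)) U := by
  set B := pinv (DV f (t, x)) with hB
  have hs : ContDiff ℝ ∞ (fun p : ℝ × E => (fun (t : ℝ) (x : E) => B (f t x)) p.1 p.2) :=
    B.contDiff.comp hf
  have h1 : DF (fun (t : ℝ) (x : E) => B (f t x)) (t, x) = ContinuousLinearMap.id ℝ E := by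
    have h2 := DF_has (F := fun (t : ℝ) (x : E) => B (f t x)) hs t x
    have h3 : HasFDerivAt (fun x => B (f t x)) (B.comp (DV f (t, x))) x :=
      B.hasFDerivAt.comp x (DV_has hf t x)
    have h4 := h2.unique h3
    rw [h4]
    ext v
    exact pinv_left h v
  obtain ⟨U, hU, hUi⟩ := Phi_inj hs (t := t) (x := x) (by rw [h1]; exact injective_id)
  refine ⟨U, hU, fun p hp q hq hpq => hUi hp hq ?_⟩
  have h5 := Prod.mk.inj hpq
  show (p.1, B (f p.1 p.2)) = (q.1, B (f q.1 q.2))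
  rw [Prod.mk.injEq]
  exact ⟨h5.1, by rw [h5.2]⟩

end

/-- the transition between two sheets -/
def Trans (F : ℝ → E → W) (t₀ : ℝ) (z z' : E) : Prop :=
  ∃ ψ : ℝ × E → E, ContDiffAt ℝ ∞ ψ (t₀, z) ∧ ψ (t₀, z) = z' ∧
    (∀ᶠ p in 𝓝 (t₀, z), F p.1 (ψ p) = F p.1 p.2) ∧
    ∀ᶠ q in 𝓝 (t₀, (z, z')), F q.1 q.2.1 = F q.1 q.2.2 → q.2.2 = ψ (q.1, q.2.1)

/-- the sheets do not touch from the inner sides, to second order -/
def NoPinch (φ : W → V) (F : ℝ → E → W) (t : ℝ) (x y : E) : Prop :=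
  (∃ v w, fderiv ℝ (fun x => φ (F t x)) x v = fderiv ℝ (fun x => φ (F t x)) y w ∧
      0 < ⟪x, v⟫ ∧ 0 < ⟪y, w⟫) ∨
    ∃ α β : ℝ → E, ContDiffAt ℝ ∞ α 0 ∧ ContDiffAt ℝ ∞ β 0 ∧ α 0 = x ∧ β 0 = y ∧
      (∀ᶠ s in 𝓝 0, ‖α s‖ = 1 ∧ F t (α s) = F t (β s)) ∧
      0 < deriv (deriv (fun s => ‖β s‖ ^ 2)) 0

/-- the hypotheses for the regular homotopy -/
structure RHW (φ : W → V) (F : ℝ → E → W) : Prop where
  cont : Continuous (fun p : ℝ × E => F p.1 p.2)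
  smooth : ContDiff ℝ ∞ (fun p : ℝ × E => φ (F p.1 p.2))
  imm : ∀ t ∈ Icc (0:ℝ) 1, ∀ x, ‖x‖ = 1 → Injective (fderiv ℝ (fun x => φ (F t x)) x)
  trans : ∀ t ∈ Icc (0:ℝ) 1, ∀ x y, ‖x‖ = 1 → ‖y‖ = 1 → F t x = F t y → Trans F t x y
  tan : ∀ t ∈ Icc (0:ℝ) 1, ∀ x y, ‖x‖ = 1 → ‖y‖ = 1 → x ≠ y → F t x = F t y → NoPinch φ F t x y

section

variable {φ : W → V} {F : ℝ → E → W} (h : RHW φ F)
include h

lemma shell_immW : ∃ n₀ : ℕ, ∀ t ∈ Icc (0:ℝ) 1, ∀ x ∈ Sh E (rad n₀),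
    Injective (fderiv ℝ (fun x => φ (F t x)) x) := by
  by_contra hcon
  push Not at hcon
  choose t ht x hx hn using hcon
  obtain ⟨t', ht', htl⟩ := ult isCompact_Icc ht
  obtain ⟨x', hx', hxl⟩ := ult (isCompact_closedBall (0:E) 1) (s := x) fun n => by
    simpa using (hx n).2
  have h1 : 1 ≤ ‖x'‖ := le_of_tendsto_of_tendsto rad_lim hxl.norm
    (Filter.Eventually.of_forall fun n => (hx n).1)
  have h2 : ‖x'‖ = 1 := le_antisymm (by simpa using hx') h1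
  have h3 := h.imm t' ht' x' h2
  rw [DV_eq (f := fun t x => φ (F t x)) h.smooth] at h3
  have h4 : Tendsto (fun n => DV (fun t x => φ (F t x)) (t n, x n)) (hyperfilter ℕ : Filter ℕ)
      (𝓝 (DV (fun t x => φ (F t x)) (t', x'))) :=
    ((DV_cont (f := fun t x => φ (F t x)) h.smooth).tendsto _).comp (htl.prodMk_nhds hxl)
  obtain ⟨n, hn'⟩ := (h4.eventually (ContinuousLinearMap.isOpen_injective.mem_nhds h3)).exists
  apply hn n
  rw [DV_eq (f := fun t x => φ (F t x)) h.smooth]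
  exact hn'

lemma Pr_near {t₀ : ℝ} (ht₀ : t₀ ∈ Icc (0:ℝ) 1) {z z' : E} (hz : ‖z‖ = 1) (hz' : ‖z'‖ = 1)
    (hN : NoPinch φ F t₀ z z') {ψ : ℝ × E → E} (hψ : ContDiffAt ℝ ∞ ψ (t₀, z))
    (hψz : ψ (t₀, z) = z') (hψF : ∀ᶠ p in 𝓝 (t₀, z), F p.1 (ψ p) = F p.1 p.2)
    (hψu : ∀ᶠ q in 𝓝 (t₀, (z, z')), F q.1 q.2.1 = F q.1 q.2.2 → q.2.2 = ψ (q.1, q.2.1)) :
    ∀ᶠ p in 𝓝 (t₀, z), ‖ψ p‖ = ‖p.2‖ → Pr ψ p.1 p.2 := by
  rcases hN with ⟨v, w, hvw, hv, hw⟩ | ⟨α, β, hα, hβ, hα0, hβ0, hαβ, h2⟩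
  · refine Pr_of_first hψ hv ?_
    have h3 : HasFDerivAt (fun u : E => ψ (t₀, u))
        ((fderiv ℝ ψ (t₀, z)).comp (ContinuousLinearMap.inr ℝ ℝ E)) z :=
      (hψ.differentiableAt (by simp)).hasFDerivAt.comp z (hasFDerivAt_prodMk_right t₀ z)
    have h4 : HasFDerivAt (fun x => φ (F t₀ x)) (fderiv ℝ (fun x => φ (F t₀ x)) z')
        (ψ (t₀, z)) := by
      rw [hψz]
      exact ((f_smooth (f := fun t x => φ (F t x)) h.smooth t₀).differentiable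
        (by simp) z').hasFDerivAt
    have h5 : HasFDerivAt (fun u : E => φ (F t₀ (ψ (t₀, u))))
        ((fderiv ℝ (fun x => φ (F t₀ x)) z').comp
          ((fderiv ℝ ψ (t₀, z)).comp (ContinuousLinearMap.inr ℝ ℝ E))) z :=
      HasFDerivAt.comp (g := fun x => φ (F t₀ x)) (f := fun u : E => ψ (t₀, u)) z h4 h3
    have h6 : (fun x => φ (F t₀ x)) =ᶠ[𝓝 z] fun u : E => φ (F t₀ (ψ (t₀, u))) := by
      have h7 : ContinuousAt (fun u : E => (t₀, u)) z := by fun_prop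
      filter_upwards [h7.eventually hψF] with u hu
      show φ (F t₀ u) = φ (F t₀ (ψ (t₀, u)))
      rw [hu]
    have h8 := (h5.congr_of_eventuallyEq h6).fderiv
    rw [h8] at hvw
    have h9 : fderiv ℝ ψ (t₀, z) (0, v) = w := h.imm t₀ ht₀ z' hz' hvw
    rw [h9, hψz]
    exact hw
  · have h3 : ∀ᶠ s in 𝓝 (0:ℝ), β s = ψ (t₀, α s) := by
      have h4 : Tendsto (fun s : ℝ => (t₀, (α s, β s))) (𝓝 0) (𝓝 (t₀, (z, z'))) := by
        rw [← hα0, ← hβ0]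
        exact (continuousAt_const.prodMk (hα.continuousAt.prodMk hβ.continuousAt))
      filter_upwards [h4.eventually hψu, hαβ] with s h5 h6
      exact h5 h6.2
    refine Pr_of_second hψ hz hα hα0 (hαβ.mono fun s hs => hs.1) ?_
    have h4 : (fun s => ‖ψ (t₀, α s)‖ ^ 2) =ᶠ[𝓝 0] fun s => ‖β s‖ ^ 2 := h3.mono fun s hs => by
      show ‖ψ (t₀, α s)‖ ^ 2 = ‖β s‖ ^ 2
      rw [hs]
    rw [h4.deriv.deriv_eq]
    exact h2

lemma shell_ncW [T2Space W] : ∃ n₀ : ℕ, ∀ t ∈ Icc (0:ℝ) 1, ∀ y y' : E, y ∈ Sh E (rad n₀) →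
    ‖y'‖ = ‖y‖ → y ≠ y' → F t y = F t y' →
    ∀ U ∈ 𝓝 y, ∀ U' ∈ 𝓝 y', ∃ u ∈ U, ∃ u' ∈ U', F t u = F t u' ∧ ‖y‖ < ‖u‖ ∧ ‖y‖ < ‖u'‖ := by
  by_contra hcon
  push Not at hcon
  choose t ht y y' hy hyy hne heq U hU U' hU' hn using hcon
  set f : ℝ → E → V := fun t x => φ (F t x) with hfd
  have hf : ContDiff ℝ ∞ (fun p : ℝ × E => f p.1 p.2) := h.smooth
  obtain ⟨t₀, ht₀, htl⟩ := ult isCompact_Icc ht
  obtain ⟨z, hz, hzl⟩ := ult (isCompact_closedBall (0:E) 1) (s := y) fun n => by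
    simpa using (hy n).2
  obtain ⟨z', hz', hzl'⟩ := ult (isCompact_closedBall (0:E) 1) (s := y') fun n => by
    simp only [mem_closedBall_zero_iff]
    rw [hyy]
    exact (hy n).2
  have h1 : 1 ≤ ‖z‖ := le_of_tendsto_of_tendsto rad_lim hzl.norm
    (Filter.Eventually.of_forall fun n => (hy n).1)
  have h1' : 1 ≤ ‖z'‖ := le_of_tendsto_of_tendsto rad_lim hzl'.norm
    (Filter.Eventually.of_forall fun n => by
      show rad n ≤ ‖y' n‖
      rw [hyy]; exact (hy n).1)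
  have h2 : ‖z‖ = 1 := le_antisymm (by simpa using hz) h1
  have h2' : ‖z'‖ = 1 := le_antisymm (by simpa using hz') h1'
  have hFz : Tendsto (fun n => F (t n) (y n)) (hyperfilter ℕ : Filter ℕ) (𝓝 (F t₀ z)) :=
    (h.cont.tendsto (t₀, z)).comp (htl.prodMk_nhds hzl)
  have hFz' : Tendsto (fun n => F (t n) (y' n)) (hyperfilter ℕ : Filter ℕ) (𝓝 (F t₀ z')) :=
    (h.cont.tendsto (t₀, z')).comp (htl.prodMk_nhds hzl')
  simp only [heq] at hFz
  have hFF : F t₀ z = F t₀ z' := tendsto_nhds_unique hFz hFz'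
  have hi : Injective (DV f (t₀, z)) := by
    rw [← DV_eq hf]; exact h.imm t₀ ht₀ z h2
  by_cases hzz : z = z'
  · rw [← hzz] at hzl'
    obtain ⟨U, hU, hUi⟩ := Phi_injV hf hi
    obtain ⟨n, hn1, hn2⟩ := (((htl.prodMk_nhds hzl).eventually hU).and
      ((htl.prodMk_nhds hzl').eventually hU)).exists
    have h3 := hUi hn1 hn2 (by simp only [hfd, heq])
    exact hne n (Prod.mk.inj h3).2
  · obtain ⟨ψ, hψ, hψz, hψF, hψu⟩ := h.trans t₀ ht₀ z z' h2 h2' hFF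
    have hPr := Pr_near h ht₀ h2 h2' (h.tan t₀ ht₀ z z' h2 h2' hzz hFF) hψ hψz hψF hψu
    have hψc : ∀ᶠ p in 𝓝 (t₀, z), ContDiffAt ℝ 1 ψ p :=
      (hψ.of_le (by simp : (1 : WithTop ℕ∞) ≤ ∞)).eventually (by simp)
    have hty := htl.prodMk_nhds hzl
    have htyy := htl.prodMk_nhds (hzl.prodMk_nhds hzl')
    obtain ⟨n, k1, k2, k3, k4⟩ := ((hty.eventually hPr).and ((hty.eventually hψc).and
      ((hty.eventually (eventually_eventually_nhds.2 hψF)).and (htyy.eventually hψu)))).exists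
    have k5 : y' n = ψ (t n, y n) := k4 (heq n)
    have hc : ContinuousAt (fun u : E => ψ (t n, u)) (y n) :=
      ContinuousAt.comp (g := ψ) (f := fun u : E => (t n, u)) k2.continuousAt (by fun_prop)
    have hS : ∀ᶠ u in 𝓝 (y n), u ∈ U n ∧ ψ (t n, u) ∈ U' n ∧ F (t n) (ψ (t n, u)) = F (t n) u := by
      have h7 : ContinuousAt (fun u : E => (t n, u)) (y n) := by fun_prop
      have h8 : Tendsto (fun u : E => ψ (t n, u)) (𝓝 (y n)) (𝓝 (y' n)) := by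
        rw [k5]; exact hc
      filter_upwards [hU n, h8.eventually (hU' n), h7.eventually k3] with u e1 e2 e3
      exact ⟨e1, e2, e3⟩
    obtain ⟨u, ⟨e1, e2, e3⟩, e4, e5⟩ := k1 (by
      show ‖ψ (t n, y n)‖ = ‖y n‖
      rw [← k5]; exact hyy n) _ hS
    exact absurd e5 (not_lt.2 (hn n u e1 (ψ (t n, u)) e2 e3.symm e4))

end

/-- the differential of the interpolation -/
def PV (f : ℝ → E → V) (r₁ r₃ : ℝ) (q : (ℝ × ℝ) × E) : E →L[ℝ] V :=
  (fderiv ℝ (fun p : ℝ × E => f p.1 p.2)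
    (q.1.1 + ch r₁ r₃ q.2 * (q.1.2 - q.1.1), q.2)).comp
    (ContinuousLinearMap.inr ℝ ℝ E +
      ((q.1.2 - q.1.1) • fderiv ℝ (ch r₁ r₃) q.2).smulRight ((1:ℝ), (0:E)))

lemma PV_cont {f : ℝ → E → V} (hf : ContDiff ℝ ∞ (fun p : ℝ × E => f p.1 p.2)) (r₁ r₃ : ℝ) :
    Continuous (PV f r₁ r₃) := by
  have h3 : Continuous fun q : (ℝ × ℝ) × E => ch r₁ r₃ q.2 :=
    ch_smooth.continuous.comp continuous_snd
  have h4 : Continuous fun q : (ℝ × ℝ) × E => fderiv ℝ (ch r₁ r₃ : E → ℝ) q.2 :=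
    (ch_smooth.continuous_fderiv (by simp)).comp continuous_snd
  have h1 : Continuous fun q : (ℝ × ℝ) × E => fderiv ℝ (fun p : ℝ × E => f p.1 p.2)
      (q.1.1 + ch r₁ r₃ q.2 * (q.1.2 - q.1.1), q.2) :=
    (hf.continuous_fderiv (by simp)).comp (by fun_prop)
  have h5 : Continuous fun q : (ℝ × ℝ) × E => (q.1.2 - q.1.1) • fderiv ℝ (ch r₁ r₃ : E → ℝ) q.2 :=
    (by fun_prop : Continuous fun q : (ℝ × ℝ) × E => q.1.2 - q.1.1).smul h4
  have h6 : Continuous fun q : (ℝ × ℝ) × E =>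
      ((q.1.2 - q.1.1) • fderiv ℝ (ch r₁ r₃ : E → ℝ) q.2).smulRight ((1:ℝ), (0:E)) := by
    have h7 : Continuous fun p : (E →L[ℝ] ℝ) × (ℝ × E) => p.1.smulRight p.2 :=
      (ContinuousLinearMap.smulRightL ℝ E (ℝ × E)).continuous₂
    exact h7.comp (h5.prodMk continuous_const)
  unfold PV
  exact h1.clm_comp (continuous_const.add h6)

lemma PV_has {f : ℝ → E → V} (hf : ContDiff ℝ ∞ (fun p : ℝ × E => f p.1 p.2)) (r₁ r₃ t₀ t : ℝ)
    (x : E) : HasFDerivAt (fun x : E => f (t₀ + ch r₁ r₃ x * (t - t₀)) x)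
      (PV f r₁ r₃ ((t₀, t), x)) x := by
  have h1 : HasFDerivAt (fun p : ℝ × E => f p.1 p.2)
      (fderiv ℝ (fun p : ℝ × E => f p.1 p.2) (t₀ + ch r₁ r₃ x * (t - t₀), x))
      (t₀ + ch r₁ r₃ x * (t - t₀), x) := (hf.differentiable (by simp) _).hasFDerivAt
  have h2 : HasFDerivAt (ch r₁ r₃ : E → ℝ) (fderiv ℝ (ch r₁ r₃) x) x :=
    (ch_smooth.differentiable (by simp) x).hasFDerivAt
  have h3 : HasFDerivAt (fun x : E => t₀ + ch r₁ r₃ x * (t - t₀))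
      ((t - t₀) • fderiv ℝ (ch r₁ r₃ : E → ℝ) x) x := by
    have := (h2.mul_const (t - t₀)).const_add t₀
    exact this
  have h4 : HasFDerivAt (fun x : E => (t₀ + ch r₁ r₃ x * (t - t₀), x))
      (((t - t₀) • fderiv ℝ (ch r₁ r₃ : E → ℝ) x).prod (ContinuousLinearMap.id ℝ E)) x :=
    h3.prodMk (hasFDerivAt_id x)
  have h5 := HasFDerivAt.comp (g := fun p : ℝ × E => f p.1 p.2)
    (f := fun x : E => (t₀ + ch r₁ r₃ x * (t - t₀), x)) x h1 h4
  refine h5.congr_fderiv ?_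
  unfold PV
  congr 1
  ext v <;> simp

lemma PV_diag {f : ℝ → E → V} (r₁ r₃ t₀ : ℝ) (x : E) : PV f r₁ r₃ ((t₀, t₀), x) = DV f (t₀, x) := by
  unfold PV DV
  simp

end Pool.Agent.H27.Tgt
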