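import Pool.Agent.H27.Tgt.Shell

/-! Immersed balls in a manifold, along a regular homotopy of the boundary without inverse
self-tangencies. -/

set_option autoImplicit false
set_option linter.unusedSectionVars false

open scoped Topology ContDiff Manifold RealInnerProductSpace
open Set Metric Filter Function Pool.Agent.H27.Sch

noncomputable section

namespace Pool.Agent.H27.Tgt

variable {E : Type} [NormedAddCommGroup E] [InnerProductSpace ℝ E] [FiniteDimensional ℝ E]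
  [CompleteSpace E]
variable {V : Type} [NormedAddCommGroup V] [InnerProductSpace ℝ V] [FiniteDimensional ℝ V]
  [CompleteSpace V]
variable {EW : Type} [NormedAddCommGroup EW] [NormedSpace ℝ EW] [FiniteDimensional ℝ EW]
  {HW : Type} [TopologicalSpace HW] {I : ModelWithCorners ℝ EW HW} [I.Boundaryless]
variable {W : Type} [TopologicalSpace W] [ChartedSpace HW W] [IsManifold I ∞ W]

theorem lif_mfd {φ : W → V} (hφ : ContMDiff I 𝓘(ℝ, V) ∞ φ)
    (hdim : Module.finrank ℝ EW = Module.finrank ℝ E) {G H : E → W}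
    (hG : ContMDiff 𝓘(ℝ, E) I ∞ G) (hH : ContMDiff 𝓘(ℝ, E) I ∞ H) : Lif φ G H := by
  refine ⟨hG.continuous, hH.continuous, contMDiff_iff_contDiff.1 (hφ.comp hG),
    contMDiff_iff_contDiff.1 (hφ.comp hH), ?_⟩
  intro x z hz hxz
  let e : EW ≃L[ℝ] E := ContinuousLinearEquiv.ofFinrankEq hdim
  set w : W := G z with hw
  -- the coordinates
  have hψ : ContMDiffAt I 𝓘(ℝ, EW) ∞ (extChartAt I w) w := contMDiffAt_extChartAt
  have hψs : ContMDiffOn 𝓘(ℝ, EW) I ∞ (extChartAt I w).symm (extChartAt I w).target :=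
    contMDiffOn_extChartAt_symm w
  have hsrc : (extChartAt I w).source ∈ 𝓝 w := extChartAt_source_mem_nhds w
  have htgt : IsOpen (extChartAt I w).target := isOpen_extChartAt_target w
  set c : E → E := fun p => e (extChartAt I w (G p)) with hc
  have hcs : ContDiffAt ℝ ∞ c z := by
    have h1 : ContMDiffAt 𝓘(ℝ, E) 𝓘(ℝ, EW) ∞ (fun p => extChartAt I w (G p)) z :=
      ContMDiffAt.comp z hψ hG.contMDiffAt
    exact e.contDiff.contDiffAt.comp z (contMDiffAt_iff_contDiffAt.1 h1)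
  have hGsrc : ∀ᶠ p in 𝓝 z, G p ∈ (extChartAt I w).source :=
    hG.continuous.continuousAt.eventually hsrc
  -- the map in the coordinates
  set g : E → V := fun y => φ ((extChartAt I w).symm (e.symm y)) with hg
  have hcz : e.symm (c z) = extChartAt I w w := by
    simp only [hc]
    rw [e.symm_apply_apply]
  have hgd : DifferentiableAt ℝ g (c z) := by
    have h1 : ContMDiffAt 𝓘(ℝ, EW) 𝓘(ℝ, V) ∞ (fun y => φ ((extChartAt I w).symm y))
        (e.symm (c z)) := by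
      rw [hcz]
      exact hφ.contMDiffAt.comp _ (hψs.contMDiffAt (htgt.mem_nhds (mem_extChartAt_target w)))
    have h2 : ContDiffAt ℝ ∞ g (c z) :=
      ContDiffAt.comp (f := fun y => e.symm y) (g := fun y => φ ((extChartAt I w).symm y)) (c z)
        (contMDiffAt_iff_contDiffAt.1 h1) e.symm.contDiff.contDiffAt
    exact h2.differentiableAt (by simp)
  have hgc : (fun p => φ (G p)) =ᶠ[𝓝 z] g ∘ c := by
    filter_upwards [hGsrc] with p hp
    simp only [hg, hc, comp_apply]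
    rw [e.symm_apply_apply, (extChartAt I w).left_inv hp]
  have hci : Injective (fderiv ℝ c z) := by
    have h1 := (hgd.hasFDerivAt.comp z ((hcs.differentiableAt (by simp)).hasFDerivAt))
    have h2 := (h1.congr_of_eventuallyEq hgc).fderiv
    rw [h2] at hz
    exact Injective.of_comp (f := fderiv ℝ g (c z)) hz
  obtain ⟨L, hL1, hL2, hL3, hL4, -⟩ := ld_inv hcs hci
  have hLz : L (c z) = z := hL3.self_of_nhds
  have hHsrc : ∀ᶠ x' in 𝓝 x, H x' ∈ (extChartAt I w).source :=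
    hH.continuous.continuousAt.eventually (by rw [← hxz]; exact hsrc)
  have hHc : ContDiffAt ℝ ∞ (fun x' => e (extChartAt I w (H x'))) x := by
    have h1 : ContMDiffAt 𝓘(ℝ, E) 𝓘(ℝ, EW) ∞ (fun p => extChartAt I w (H p)) x :=
      ContMDiffAt.comp x (by rw [← hxz]; exact hψ) hH.contMDiffAt
    exact e.contDiff.contDiffAt.comp x (contMDiffAt_iff_contDiffAt.1 h1)
  have hHx : e (extChartAt I w (H x)) = c z := by rw [← hxz]
  have hHt : Tendsto (fun x' => e (extChartAt I w (H x'))) (𝓝 x) (𝓝 (c z)) := by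
    rw [← hHx]
    exact hHc.continuousAt
  refine ⟨fun x' => L (e (extChartAt I w (H x'))), ?_, ?_, ?_⟩
  · exact ContDiffAt.comp (f := fun x' => e (extChartAt I w (H x'))) (g := L) x
      (by rw [hHx]; exact hL4) hHc
  · show L (e (extChartAt I w (H x))) = z
    rw [hHx, hLz]
  · filter_upwards [hHsrc, hHt.eventually hL1, (hL2.comp hHt).eventually hGsrc] with x' h1 h2 h3
    have h4 : e (extChartAt I w (G (L (e (extChartAt I w (H x')))))) =
      e (extChartAt I w (H x')) := h2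
    exact (extChartAt I w).injOn h3 h1 (e.injective h4)

/-- a local inverse, in a normed space -/
lemma ld_inv_gen {X : Type} [NormedAddCommGroup X] [NormedSpace ℝ X] [FiniteDimensional ℝ X]
    [CompleteSpace X] {c : X → X} {y : X} (hc : ContDiffAt ℝ ∞ c y) (hi : Injective (fderiv ℝ c y)) :
    ∃ L : X → X, (∀ᶠ z in 𝓝 (c y), c (L z) = z) ∧ Tendsto L (𝓝 (c y)) (𝓝 y) ∧
      (∀ᶠ z in 𝓝 y, L (c z) = z) ∧ ContDiffAt ℝ ∞ L (c y) := by
  let e : X ≃L[ℝ] X := (LinearEquiv.ofInjectiveEndo (fderiv ℝ c y : X →ₗ[ℝ] X)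
    hi).toContinuousLinearEquiv
  have he : (e : X →L[ℝ] X) = fderiv ℝ c y := by
    ext x
    rfl
  have h1 : HasStrictFDerivAt c (e : X →L[ℝ] X) y := by
    rw [he]
    exact hc.hasStrictFDerivAt (by simp)
  have h0 : HasFDerivAt c (e : X →L[ℝ] X) y := h1.hasFDerivAt
  exact ⟨h1.localInverse c e y, h1.eventually_right_inverse, h1.localInverse_tendsto,
    h1.eventually_left_inverse, hc.to_localInverse h0 (by simp)⟩

theorem trans_mfd {φ : W → V} (hφ : ContMDiff I 𝓘(ℝ, V) ∞ φ)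
    (hdim : Module.finrank ℝ EW = Module.finrank ℝ E) {F : ℝ → E → W}
    (hF : ContMDiff 𝓘(ℝ, ℝ × E) I ∞ (fun p : ℝ × E => F p.1 p.2)) {t₀ : ℝ} {z z' : E}
    (hz' : Injective (fderiv ℝ (fun x => φ (F t₀ x)) z')) (hzz : F t₀ z = F t₀ z') :
    Trans F t₀ z z' := by
  let e : EW ≃L[ℝ] E := ContinuousLinearEquiv.ofFinrankEq hdim
  set w : W := F t₀ z with hw
  have hψ : ContMDiffAt I 𝓘(ℝ, EW) ∞ (extChartAt I w) w := contMDiffAt_extChartAt
  have hψs : ContMDiffOn 𝓘(ℝ, EW) I ∞ (extChartAt I w).symm (extChartAt I w).target :=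
    contMDiffOn_extChartAt_symm w
  have hsrc : (extChartAt I w).source ∈ 𝓝 w := extChartAt_source_mem_nhds w
  have htgt : IsOpen (extChartAt I w).target := isOpen_extChartAt_target w
  set k : ℝ × E → E := fun p => e (extChartAt I w (F p.1 p.2)) with hk
  have hks : ∀ p : ℝ × E, F p.1 p.2 = w → ContDiffAt ℝ ∞ k p := by
    intro p hp
    have h1 : ContMDiffAt 𝓘(ℝ, ℝ × E) 𝓘(ℝ, EW) ∞
        (fun p : ℝ × E => extChartAt I w (F p.1 p.2)) p :=
      ContMDiffAt.comp p (by rw [hp]; exact hψ) hF.contMDiffAt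
    exact e.contDiff.contDiffAt.comp p (contMDiffAt_iff_contDiffAt.1 h1)
  have hFsrc : ∀ p : ℝ × E, F p.1 p.2 = w →
      ∀ᶠ q in 𝓝 p, F q.1 q.2 ∈ (extChartAt I w).source := fun p hp =>
    hF.continuous.continuousAt.eventually (by
      show ∀ᶠ y in 𝓝 (F p.1 p.2), y ∈ (extChartAt I w).source
      rw [hp]; exact hsrc)
  have hsz' : F t₀ z' = w := hzz.symm
  -- the map with the time
  set c : ℝ × E → ℝ × E := fun p => (p.1, k p) with hc
  have hcs : ∀ p : ℝ × E, F p.1 p.2 = w → ContDiffAt ℝ ∞ c p := fun p hp =>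
    contDiffAt_fst.prodMk (hks p hp)
  -- the derivative in the direction of the space
  set g : E → V := fun y => φ ((extChartAt I w).symm (e.symm y)) with hg
  have hkz : e.symm (k (t₀, z')) = extChartAt I w w := by
    simp only [hk]
    rw [e.symm_apply_apply, hsz']
  have hgd : DifferentiableAt ℝ g (k (t₀, z')) := by
    have h1 : ContMDiffAt 𝓘(ℝ, EW) 𝓘(ℝ, V) ∞ (fun y => φ ((extChartAt I w).symm y))
        (e.symm (k (t₀, z'))) := by
      rw [hkz]
      exact hφ.contMDiffAt.comp _ (hψs.contMDiffAt (htgt.mem_nhds (mem_extChartAt_target w)))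
    have h2 : ContDiffAt ℝ ∞ g (k (t₀, z')) :=
      ContDiffAt.comp (f := fun y => e.symm y) (g := fun y => φ ((extChartAt I w).symm y))
        (k (t₀, z')) (contMDiffAt_iff_contDiffAt.1 h1) e.symm.contDiff.contDiffAt
    exact h2.differentiableAt (by simp)
  have hsl : ContinuousAt (fun x : E => (t₀, x)) z' := by fun_prop
  have hgc : (fun x => φ (F t₀ x)) =ᶠ[𝓝 z'] fun x => g (k (t₀, x)) := by
    filter_upwards [hsl.eventually (hFsrc (t₀, z') hsz')] with x hx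
    simp only [hg, hk]
    rw [e.symm_apply_apply, (extChartAt I w).left_inv hx]
  have hkf : HasFDerivAt k (fderiv ℝ k (t₀, z')) (t₀, z') :=
    ((hks _ hsz').differentiableAt (by simp)).hasFDerivAt
  have hkd : HasFDerivAt (fun x : E => k (t₀, x))
      ((fderiv ℝ k (t₀, z')).comp (ContinuousLinearMap.inr ℝ ℝ E)) z' :=
    hkf.comp z' (hasFDerivAt_prodMk_right t₀ z')
  have hki : Injective ((fderiv ℝ k (t₀, z')).comp (ContinuousLinearMap.inr ℝ ℝ E)) := by
    have h1 := HasFDerivAt.comp (g := g) (f := fun x : E => k (t₀, x)) z' hgd.hasFDerivAt hkd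
    have h2 := (h1.congr_of_eventuallyEq hgc).fderiv
    rw [h2] at hz'
    exact Injective.of_comp (f := fderiv ℝ g (k (t₀, z'))) hz'
  have hci : Injective (fderiv ℝ c (t₀, z')) := by
    have h1 : HasFDerivAt c ((ContinuousLinearMap.fst ℝ ℝ E).prod (fderiv ℝ k (t₀, z')))
        (t₀, z') := hasFDerivAt_fst.prodMk hkf
    rw [h1.fderiv, injective_iff_map_eq_zero]
    rintro ⟨τ, v⟩ h2
    have h3 : (τ, fderiv ℝ k (t₀, z') (τ, v)) = (0, 0) := h2
    rw [Prod.mk.injEq] at h3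
    obtain ⟨h4, h5⟩ := h3
    rw [h4] at h5
    have h6 : ((fderiv ℝ k (t₀, z')).comp (ContinuousLinearMap.inr ℝ ℝ E)) v = 0 := h5
    have h7 : v = 0 := hki (h6.trans (map_zero _).symm)
    rw [h4, h7]
    rfl
  obtain ⟨L, hL1, hL2, hL3, hL4⟩ := ld_inv_gen (hcs (t₀, z') hsz') hci
  have hLz : L (c (t₀, z')) = (t₀, z') := hL3.self_of_nhds
  have hcc : c (t₀, z) = c (t₀, z') := by
    simp only [hc, hk]
    rw [hsz']
  refine ⟨fun p => (L (c p)).2, ?_, ?_, ?_, ?_⟩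
  · exact contDiffAt_snd.comp (t₀, z) (ContDiffAt.comp (g := L) (f := c) (t₀, z)
      (by rw [hcc]; exact hL4) (hcs (t₀, z) rfl))
  · show (L (c (t₀, z))).2 = z'
    rw [hcc, hLz]
  · have h1 : Tendsto c (𝓝 (t₀, z)) (𝓝 (c (t₀, z'))) := by
      rw [← hcc]
      exact (hcs (t₀, z) rfl).continuousAt
    filter_upwards [h1.eventually hL1, (hL2.comp h1).eventually (hFsrc (t₀, z') hsz'),
      hFsrc (t₀, z) rfl] with p h2 h3 h4
    have h5' : (c (L (c p))).1 = (c p).1 := congrArg Prod.fst h2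
    have h6' : (c (L (c p))).2 = (c p).2 := congrArg Prod.snd h2
    have h5 : (L (c p)).1 = p.1 := h5'
    have h6 : e (extChartAt I w (F (L (c p)).1 (L (c p)).2)) = e (extChartAt I w (F p.1 p.2)) :=
      h6'
    have h7 : F (L (c p)).1 (L (c p)).2 = F p.1 p.2 :=
      (extChartAt I w).injOn h3 h4 (e.injective h6)
    rwa [h5] at h7
  · have h1 : Tendsto (fun q : ℝ × (E × E) => (q.1, q.2.2)) (𝓝 (t₀, (z, z'))) (𝓝 (t₀, z')) := by
      have : Continuous (fun q : ℝ × (E × E) => (q.1, q.2.2)) := by fun_prop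
      exact this.tendsto (t₀, (z, z'))
    filter_upwards [h1.eventually hL3] with q h2 h3
    have h4 : c (q.1, q.2.1) = c (q.1, q.2.2) := by
      simp only [hc, hk]
      rw [h3]
    show q.2.2 = (L (c (q.1, q.2.1))).2
    rw [h4, h2]

/-- `F t` extends to an immersion of the ball -/
def GdW (I : ModelWithCorners ℝ EW HW) (φ : W → V) (F : ℝ → E → W) (t : ℝ) : Prop :=
  ∃ G : E → W, ContMDiff 𝓘(ℝ, E) I ∞ G ∧
    (∀ x, ‖x‖ ≤ 1 → Injective (fderiv ℝ (fun x => φ (G x)) x)) ∧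
    ∃ a > 0, a < 1 ∧ ∀ x, |‖x‖ - 1| < a → G x = F t x

section

variable [T2Space W] {φ : W → V} {F : ℝ → E → W} (hφ : ContMDiff I 𝓘(ℝ, V) ∞ φ)
  (hdim : Module.finrank ℝ EW = Module.finrank ℝ E)
  (hF : ContMDiff 𝓘(ℝ, ℝ × E) I ∞ (fun p : ℝ × E => F p.1 p.2)) (h : RHW φ F)

include hF in
lemma FW_smooth (t : ℝ) : ContMDiff 𝓘(ℝ, E) I ∞ (F t) := by
  have h1 : ContMDiff 𝓘(ℝ, E) 𝓘(ℝ, ℝ × E) ∞ (fun x : E => (t, x)) :=
    contMDiff_iff_contDiff.2 (contDiff_const.prodMk contDiff_id)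
  exact hF.comp h1

include hφ hdim hF h in
/-- **One step.** -/
theorem stepW : ∃ δ > 0, ∀ t₀ ∈ Icc (0:ℝ) 1, ∀ t ∈ Icc (0:ℝ) 1, |t - t₀| < δ → GdW I φ F t₀ →
    GdW I φ F t := by
  set f : ℝ → E → V := fun t x => φ (F t x) with hfd
  have hf : ContDiff ℝ ∞ (fun p : ℝ × E => f p.1 p.2) := h.smooth
  obtain ⟨n₁, hn₁⟩ := shell_immW h
  obtain ⟨n₂, hn₂⟩ := shell_ncW h
  set r₀ := rad (max n₁ n₂) with hr₀d
  have hr₀ : 0 < r₀ := rad_pos _
  have hr₀1 : r₀ < 1 := rad_lt _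
  have radm : ∀ {m n : ℕ}, m ≤ n → rad m ≤ rad n := by
    intro m n hmn
    unfold rad
    have h1 : ((m:ℝ) + 2) ≤ (n:ℝ) + 2 := by
      have : (m:ℝ) ≤ n := by exact_mod_cast hmn
      linarith
    have := one_div_le_one_div_of_le (by positivity : (0:ℝ) < (m:ℝ) + 2) h1
    linarith
  have himm : ∀ t ∈ Icc (0:ℝ) 1, ∀ x ∈ Sh E r₀, Injective (fderiv ℝ (f t) x) := fun t ht x hx =>
    hn₁ t ht x ⟨(radm (le_max_left _ _)).trans hx.1, hx.2⟩
  have htan : ∀ t ∈ Icc (0:ℝ) 1, ∀ y y' : E, y ∈ Sh E r₀ → ‖y'‖ = ‖y‖ → y ≠ y' → F t y = F t y' →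
      ∀ U ∈ 𝓝 y, ∀ U' ∈ 𝓝 y', ∃ u ∈ U, ∃ u' ∈ U', F t u = F t u' ∧ ‖y‖ < ‖u‖ ∧ ‖y‖ < ‖u'‖ :=
    fun t ht y y' hy => hn₂ t ht y y' ⟨(radm (le_max_right _ _)).trans hy.1, hy.2⟩
  obtain ⟨r₁, hr₁, hr₁1⟩ := exists_between hr₀1
  obtain ⟨r₂, hr₂, hr₂1⟩ := exists_between hr₁1
  obtain ⟨r₃, hr₃, hr₃1⟩ := exists_between hr₂1
  have hr₂0 : 0 < r₂ := by linarith
  -- the uniform step
  obtain ⟨δ, hδ, hδ'⟩ : ∃ δ > 0, ∀ t₀ ∈ Icc (0:ℝ) 1, ∀ t ∈ Icc (0:ℝ) 1, |t - t₀| < δ →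
      ∀ x ∈ Sh E r₀, Injective (PV f r₂ r₃ ((t₀, t), x)) := by
    by_contra hcon
    push Not at hcon
    have h1 : ∀ n : ℕ, ∃ t₀ ∈ Icc (0:ℝ) 1, ∃ t ∈ Icc (0:ℝ) 1, |t - t₀| < 1 / ((n:ℝ) + 1) ∧
        ∃ x ∈ Sh E r₀, ¬Injective (PV f r₂ r₃ ((t₀, t), x)) := fun n =>
      hcon (1 / ((n:ℝ) + 1)) (by positivity)
    choose t₀ ht₀ t ht htt x hx hn using h1
    obtain ⟨a, ha, hal⟩ := ult isCompact_Icc ht₀
    obtain ⟨b, hb, hbl⟩ := ult isCompact_Icc ht
    obtain ⟨z, hz, hzl⟩ := ult (Sh_compact r₀) hx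
    have hab : b - a = 0 := by
      have h2 : Tendsto (fun n => t n - t₀ n) (hyperfilter ℕ : Filter ℕ) (𝓝 (b - a)) :=
        hbl.sub hal
      have h3 : Tendsto (fun n : ℕ => 1 / ((n:ℝ) + 1)) (hyperfilter ℕ : Filter ℕ) (𝓝 0) :=
        (tendsto_one_div_add_atTop_nhds_zero_nat (𝕜 := ℝ)).mono_left Nat.hyperfilter_le_atTop
      have h4 : Tendsto (fun n => t n - t₀ n) (hyperfilter ℕ : Filter ℕ) (𝓝 0) :=
        squeeze_zero_norm (fun n => by rw [Real.norm_eq_abs]; exact (htt n).le) h3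
      exact tendsto_nhds_unique h2 h4
    have hba : b = a := by linarith
    rw [hba] at hbl
    have h5 : Tendsto (fun n => PV f r₂ r₃ ((t₀ n, t n), x n)) (hyperfilter ℕ : Filter ℕ)
        (𝓝 (PV f r₂ r₃ ((a, a), z))) :=
      ((PV_cont hf r₂ r₃).tendsto _).comp ((hal.prodMk_nhds hbl).prodMk_nhds hzl)
    have h7 : Injective (PV f r₂ r₃ ((a, a), z)) := by
      rw [PV_diag, ← DV_eq hf]
      exact himm a ha z hz
    obtain ⟨n, hn'⟩ := (h5.eventually (ContinuousLinearMap.isOpen_injective.mem_nhds h7)).exists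
    exact hn n hn'
  refine ⟨δ, hδ, ?_⟩
  rintro t₀ ht₀ t ht htt ⟨G, hG, hGi, a, ha, ha1, haG⟩
  have hHs := FW_smooth hF t₀
  have hL : Lif φ G (F t₀) := lif_mfd hφ hdim hG hHs
  obtain ⟨c, hc1, hcc, hcl⟩ := exists_collar hL hGi ha ha1 haG hr₀ (himm t₀ ht₀)
  have hJ : J c r₀ := collar_J hL.sG hGi ha hr₀ hr₀1 hc1 hcc hcl (htan t₀ ht₀)
  have hloc := J_local hr₀ hcl le_rfl hJ.1
  obtain ⟨C, hC, hCi, hCB, hGC⟩ := widen ha hr₀ haG hc1 hJ hloc hr₁ hr₁1
  obtain ⟨rm, hrm, hrm2⟩ := exists_between hr₂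
  set τ : E → ℝ := fun x => t₀ + ch r₂ r₃ x * (t - t₀) with hτ
  have hτs : ContDiff ℝ ∞ τ := contDiff_const.add (ch_smooth.mul contDiff_const)
  have hs1 : ContMDiff 𝓘(ℝ, E) I ∞ (fun x => G (C x)) := hG.comp (contMDiff_iff_contDiff.2 hC)
  have hs2 : ContMDiff 𝓘(ℝ, E) I ∞ (fun x => F (τ x) x) := by
    have h1 : ContMDiff 𝓘(ℝ, E) 𝓘(ℝ, ℝ × E) ∞ (fun x : E => (τ x, x)) :=
      contMDiff_iff_contDiff.2 (hτs.prodMk contDiff_id)
    exact hF.comp h1
  classical
  set G₁ : E → W := fun x => if ‖x‖ < rm then G (C x) else F (τ x) x with hG₁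
  have hagree : ∀ x : E, r₁ ≤ ‖x‖ → ‖x‖ ≤ r₂ → G (C x) = F (τ x) x := by
    intro x h1 h2
    rw [hGC x h1 (by linarith)]
    simp only [hτ]
    rw [ch_low hr₂0.le hr₃ h2, zero_mul, add_zero]
  have hin : ∀ x : E, ‖x‖ < r₂ → G₁ =ᶠ[𝓝 x] fun x => G (C x) := by
    intro x hx
    filter_upwards [continuous_norm.continuousAt.eventually_lt_const hx] with y hy
    simp only [hG₁]
    split_ifs with h1
    · rfl
    · exact (hagree y (hrm.le.trans (not_lt.1 h1)) hy.le).symm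
  have hout : ∀ x : E, r₁ < ‖x‖ → G₁ =ᶠ[𝓝 x] fun x => F (τ x) x := by
    intro x hx
    filter_upwards [continuous_norm.continuousAt.eventually_const_lt hx] with y hy
    simp only [hG₁]
    split_ifs with h1
    · exact hagree y hy.le (h1.le.trans hrm2.le)
    · rfl
  refine ⟨G₁, ?_, ?_, min a (1 - r₃), lt_min ha (by linarith),
    (min_le_left _ _).trans_lt ha1, ?_⟩
  · intro x
    rcases lt_or_ge ‖x‖ r₂ with h1 | h1
    · exact hs1.contMDiffAt.congr_of_eventuallyEq (hin x h1)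
    · exact hs2.contMDiffAt.congr_of_eventuallyEq (hout x (hr₂.trans_le h1))
  · intro x hx
    rcases lt_or_ge ‖x‖ r₂ with h1 | h1
    · have h2 : (fun x => φ (G₁ x)) =ᶠ[𝓝 x] (fun x => φ (G x)) ∘ C := (hin x h1).mono fun y hy => by
        show φ (G₁ y) = φ (G (C y))
        rw [hy]
      rw [h2.fderiv_eq, fderiv_comp x (hL.sG.differentiable (by simp) _)
        (hC.differentiable (by simp) _)]
      exact (hGi (C x) (hCB x hx)).comp (hCi x)
    · have h2 : (fun x => φ (G₁ x)) =ᶠ[𝓝 x] fun x => f (t₀ + ch r₂ r₃ x * (t - t₀)) x :=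
        (hout x (hr₂.trans_le h1)).mono fun y hy => by
          show φ (G₁ y) = φ (F (τ y) y)
          rw [hy]
      rw [h2.fderiv_eq, (PV_has hf r₂ r₃ t₀ t x).fderiv]
      exact hδ' t₀ ht₀ t ht htt x ⟨by linarith, hx⟩
  · intro x hx
    have h1 := hx.trans_le (min_le_left _ _)
    have h2 := hx.trans_le (min_le_right _ _)
    rw [abs_lt] at h1 h2
    have h3 : ch r₂ r₃ x = 1 := ch_one hr₂0.le hr₃ (by linarith)
    have h4 : ¬‖x‖ < rm := by
      rw [not_lt]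
      linarith
    simp only [hG₁]
    rw [if_neg h4]
    simp only [hτ]
    rw [h3, one_mul, add_sub_cancel]

include hφ hdim hF h in
/-- **Immersed balls along the homotopy.** -/
theorem all_timesW (h0 : GdW I φ F 0) : GdW I φ F 1 := by
  obtain ⟨δ, hδ, hstep⟩ := stepW hφ hdim hF h
  obtain ⟨N, hN⟩ := exists_nat_one_div_lt hδ
  have hN0 : (0:ℝ) < (N:ℝ) + 1 := by positivity
  have key : ∀ k : ℕ, k ≤ N + 1 → GdW I φ F ((k:ℝ) / ((N:ℝ) + 1)) := by
    intro k
    induction k with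
    | zero => intro _; simpa using h0
    | succ k ih =>
      intro hk
      have hk1 : ((k:ℝ) + 1) ≤ (N:ℝ) + 1 := by exact_mod_cast hk
      have hk0 : (0:ℝ) ≤ k := Nat.cast_nonneg k
      refine hstep _ ⟨by positivity, ?_⟩ _ ⟨by positivity, ?_⟩ ?_ (ih (by omega))
      · rw [div_le_one hN0]; linarith
      · rw [div_le_one hN0]; push_cast; linarith
      · have h1 : ((k + 1 : ℕ) : ℝ) / ((N:ℝ) + 1) - (k:ℝ) / ((N:ℝ) + 1) = 1 / ((N:ℝ) + 1) := by
          push_cast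
          rw [← sub_div]
          congr 1
          ring
        rw [h1, abs_of_pos (by positivity)]
        exact hN
  have := key (N + 1) le_rfl
  push_cast at this
  rwa [div_self hN0.ne'] at this

end

end Pool.Agent.H27.Tgt
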