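import Pool.Agent.H27.Tgt.Emb

/-! Widening the collar, for maps to a manifold. -/

set_option autoImplicit false
set_option linter.unusedSectionVars false

open scoped Topology ContDiff Manifold RealInnerProductSpace
open Set Metric Filter Function Pool.Agent.H27.Sch

noncomputable section

namespace Pool.Agent.H27.Tgt

variable {E : Type} [NormedAddCommGroup E] [InnerProductSpace ℝ E] [FiniteDimensional ℝ E]
variable {W : Type}

theorem widen {c : E → E} {G H : E → W} {a r₀ : ℝ} (ha : 0 < a) (hr₀ : 0 < r₀)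
    (haG : ∀ x, |‖x‖ - 1| < a → G x = H x)
    (hc1 : ∀ y, 1 - a < ‖y‖ → c y = y) (hJ : J c r₀)
    (hloc : ∀ y ∈ Sh E r₀, ContDiffAt ℝ ∞ c y ∧ Injective (fderiv ℝ c y) ∧
      ∀ᶠ z in 𝓝 y, G (c z) = H z)
    {r₁ : ℝ} (hr₁ : r₀ < r₁) (hr₁1 : r₁ < 1) :
    ∃ C : E → E, ContDiff ℝ ∞ C ∧ (∀ x, Injective (fderiv ℝ C x)) ∧ (∀ x, ‖x‖ ≤ 1 → ‖C x‖ ≤ 1) ∧
      ∀ x, r₁ ≤ ‖x‖ → ‖x‖ < 1 + a → G (C x) = H x := by
  classical
  -- the radii
  obtain ⟨r₂, hr₂, hr₂'⟩ := exists_between hr₁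
  have hr₂0 : 0 < r₂ := hr₀.trans hr₂
  obtain ⟨s₁, hs₁, hs₁'⟩ := exists_between (show max r₁ (1 - a) < 1 from max_lt hr₁1 (by linarith))
  obtain ⟨s₂, hs₂, hs₂'⟩ := exists_between hs₁'
  have hs₁r : r₁ < s₁ := (le_max_left _ _).trans_lt hs₁
  have hs₁a : 1 - a < s₁ := (le_max_right _ _).trans_lt hs₁
  have hs₁0 : 0 < s₁ := by linarith
  set χ : E → ℝ := chi r₂ r₁ s₁ s₂ with hχ
  -- the first field
  set Y₁ : E → E := fun y => -(χ y • y) with hY₁
  have hY₁s : ContDiff ℝ ∞ Y₁ := (chi_smooth.smul contDiff_id).neg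
  have hY₁low : ∀ y : E, ‖y‖ ≤ r₂ → Y₁ y = 0 := fun y hy => by
    simp only [hY₁, hχ, chi_low hr₂0.le hr₂' hy, zero_smul, neg_zero]
  have hY₁high : ∀ y : E, s₂ ≤ ‖y‖ → Y₁ y = 0 := fun y hy => by
    simp only [hY₁, hχ, chi_high hs₁0.le hs₂ hy, zero_smul, neg_zero]
  set K : Set E := closedBall (0:E) s₂ ∩ {y | r₂ ≤ ‖y‖} with hK
  have hKc : IsCompact K :=
    (isCompact_closedBall 0 s₂).inter_right (isClosed_le continuous_const continuous_norm)
  have hKmem : ∀ y : E, y ∈ K ↔ r₂ ≤ ‖y‖ ∧ ‖y‖ ≤ s₂ := fun y => by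
    simp [hK, and_comm]
  have hY₁K : ∀ y ∉ K, Y₁ y = 0 := by
    intro y hy
    rw [hKmem, not_and_or, not_le, not_le] at hy
    rcases hy with h | h
    · exact hY₁low y h.le
    · exact hY₁high y h.le
  obtain ⟨Fl₁, hFl₁⟩ := exists_gflow hY₁s hKc hY₁K
  have hKSh : K ⊆ Sh E r₀ := fun y hy => by
    rw [hKmem] at hy
    exact ⟨hr₂.le.trans hy.1, hy.2.trans hs₂'.le⟩
  have hcK : IsCompact (c '' K) := hKc.image_of_continuousOn fun y hy =>
    (hloc y (hKSh hy)).1.continuousAt.continuousWithinAt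
  -- the inverse of the collar
  set iv : E → E := fun z => if h : ∃ u ∈ Sh E r₀, c u = z then h.choose else 0 with hiv
  have hiv1 : ∀ u ∈ Sh E r₀, iv (c u) = u := by
    intro u hu
    have h : ∃ u' ∈ Sh E r₀, c u' = c u := ⟨u, hu, rfl⟩
    simp only [hiv]
    rw [dif_pos h]
    exact hJ.2 h.choose_spec.1 hu h.choose_spec.2
  set Y₂ : E → E := fun z => if ∃ u ∈ Sh E r₀, c u = z then fderiv ℝ c (iv z) (Y₁ (iv z)) else 0
    with hY₂
  have hY₂c : ∀ u ∈ Sh E r₀, Y₂ (c u) = fderiv ℝ c u (Y₁ u) := by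
    intro u hu
    simp only [hY₂]
    rw [if_pos ⟨u, hu, rfl⟩, hiv1 u hu]
  have hY₂K : ∀ z ∉ c '' K, Y₂ z = 0 := by
    intro z hz
    by_cases h : ∃ u ∈ Sh E r₀, c u = z
    · obtain ⟨u, hu, rfl⟩ := h
      rw [hY₂c u hu, hY₁K u fun h => hz ⟨u, h, rfl⟩, map_zero]
    · simp only [hY₂]
      rw [if_neg h]
  have hY₂s : ContDiff ℝ ∞ Y₂ := by
    rw [contDiff_iff_contDiffAt]
    intro z
    by_cases hz : z ∈ c '' K
    · obtain ⟨u, hu, rfl⟩ := hz
      have hu1 := (hKmem u).1 hu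
      obtain ⟨g1, g2, -⟩ := hloc u (hKSh hu)
      obtain ⟨L, hL1, hL2, hL3, hL4, -⟩ := ld_inv g1 g2
      have hLu : L (c u) = u := hL3.self_of_nhds
      have h1 : Y₂ =ᶠ[𝓝 (c u)] fun z => fderiv ℝ c (L z) (Y₁ (L z)) := by
        filter_upwards [hL1, hL2.norm.eventually_const_lt (hr₂.trans_le hu1.1),
          hL2.norm.eventually_lt_const (hu1.2.trans_lt hs₂')] with w hw1 hw2 hw3
        have := hY₂c (L w) ⟨hw2.le, hw3.le⟩
        rw [hw1] at this
        exact this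
      have h2 : ContDiffAt ℝ ∞ (fun w => fderiv ℝ c w (Y₁ w)) u :=
        (g1.fderiv_right (m := ∞) (by simp)).clm_apply hY₁s.contDiffAt
      have h3 : ContDiffAt ℝ ∞ (fun z => fderiv ℝ c (L z) (Y₁ (L z))) (c u) := by
        have h4 : ContDiffAt ℝ ∞ (fun w => fderiv ℝ c w (Y₁ w)) (L (c u)) := by rw [hLu]; exact h2
        exact h4.comp (c u) hL4
      exact h3.congr_of_eventuallyEq h1
    · refine (contDiffAt_const (c := (0:E))).congr_of_eventuallyEq ?_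
      filter_upwards [hcK.isClosed.isOpen_compl.mem_nhds hz] with w hw
      exact hY₂K w hw
  obtain ⟨Fl₂, hFl₂⟩ := exists_gflow hY₂s hcK hY₂K
  -- invariance
  have hinv : ∀ (y : E) (t : ℝ), r₂ < ‖y‖ → r₂ < ‖Fl₁ t y‖ := by
    intro y t hy
    by_contra h
    push Not at h
    have h1 := hFl₁.fixed (hY₁low _ h) (-t)
    rw [hFl₁.neg_add] at h1
    rw [h1] at hy
    exact absurd hy (not_lt.2 h)
  have hinv2 : ∀ (y : E) (t : ℝ), ‖y‖ ≤ 1 → ‖Fl₁ t y‖ ≤ 1 := by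
    intro y t hy
    by_contra h
    push Not at h
    have h1 := hFl₁.fixed (hY₁high _ (by linarith)) (-t)
    rw [hFl₁.neg_add] at h1
    rw [h1] at hy
    exact absurd h (not_lt.2 hy)
  -- the flows are intertwined
  have hint : ∀ (u : E) (t : ℝ), 0 ≤ t → r₂ < ‖u‖ → ‖u‖ ≤ 1 → Fl₂ t (c u) = c (Fl₁ t u) := by
    intro u t ht hu1 hu2
    have hmem : ∀ s, Fl₁ s u ∈ Sh E r₀ := fun s =>
      ⟨hr₂.le.trans (hinv u s hu1).le, hinv2 u s hu2⟩
    have hd : ∀ s, HasDerivAt (fun s => c (Fl₁ s u)) (Y₂ (c (Fl₁ s u))) s := by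
      intro s
      rw [hY₂c _ (hmem s)]
      have h1 : HasFDerivAt c (fderiv ℝ c (Fl₁ s u)) (Fl₁ s u) :=
        ((hloc _ (hmem s)).1.differentiableAt (by simp)).hasFDerivAt
      exact h1.comp_hasDerivAt s (hFl₁.deriv u s)
    have h1 := hFl₂.uniq (γ := fun s => c (Fl₁ s u)) (T := t)
      (fun s _ => (hd s).continuousAt.continuousWithinAt) (fun s _ => (hd s).hasDerivWithinAt)
      t ⟨ht, le_rfl⟩
    simp only [hFl₁.zero] at h1
    exact h1
  -- the time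
  set T : ℝ := -Real.log r₁ with hT
  have hr₁0 : 0 < r₁ := by linarith
  have hT0 : 0 ≤ T := by
    rw [hT, neg_nonneg]; exact Real.log_nonpos hr₁0.le hr₁1.le
  have hreach : ∀ y : E, r₁ ≤ ‖y‖ → s₁ ≤ ‖Fl₁ (-T) y‖ := by
    intro y hy
    by_contra hcon
    push Not at hcon
    set n : ℝ → ℝ := fun t => ‖Fl₁ (-t) y‖ ^ 2 with hn
    have hd : ∀ t, HasDerivAt (fun t => Fl₁ (-t) y) (χ (Fl₁ (-t) y) • Fl₁ (-t) y) t := by
      intro t
      have h1 := (hFl₁.deriv y (-t)).scomp t (hasDerivAt_neg t)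
      refine h1.congr_deriv ?_
      simp only [hY₁, smul_neg, neg_smul, one_smul, neg_neg]
    have hn' : ∀ t, HasDerivAt n (2 * (χ (Fl₁ (-t) y) * n t)) t := by
      intro t
      have h1 := (hd t).norm_sq
      refine h1.congr_deriv ?_
      rw [inner_smul_right, real_inner_self_eq_norm_sq]
    have hmono : Monotone n := by
      apply monotone_of_deriv_nonneg (fun t => (hn' t).differentiableAt)
      intro t
      rw [(hn' t).deriv]
      have : 0 ≤ χ (Fl₁ (-t) y) := chi_nonneg _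
      positivity
    have hle : ∀ t, t ≤ T → ‖Fl₁ (-t) y‖ ≤ s₁ := by
      intro t ht
      have h1 : n t ≤ n T := hmono ht
      have h2 : ‖Fl₁ (-t) y‖ ≤ ‖Fl₁ (-T) y‖ := le_of_sq_le_sq h1 (norm_nonneg _)
      exact h2.trans hcon.le
    have hge : ∀ t, 0 ≤ t → r₁ ≤ ‖Fl₁ (-t) y‖ := by
      intro t ht
      have h1 : n 0 ≤ n t := hmono ht
      simp only [hn, neg_zero, hFl₁.zero] at h1
      have h2 : ‖y‖ ≤ ‖Fl₁ (-t) y‖ := le_of_sq_le_sq h1 (norm_nonneg _)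
      exact hy.trans h2
    have hmono2 : MonotoneOn (fun t => Real.exp (-(2 * t)) * n t) (Icc 0 T) := by
      have hdd : ∀ t, HasDerivAt (fun t => Real.exp (-(2 * t)) * n t)
          (Real.exp (-(2 * t)) * (2 * (χ (Fl₁ (-t) y) * n t) - 2 * n t)) t := by
        intro t
        have h1 : HasDerivAt (fun t : ℝ => Real.exp (-(2 * t))) (Real.exp (-(2 * t)) * (-2)) t := by
          have h2 : HasDerivAt (fun t : ℝ => -(2 * t)) (-2) t := by
            have := ((hasDerivAt_id' t).const_mul (2:ℝ)).fun_neg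
            simpa using this
          exact h2.exp
        refine (h1.mul (hn' t)).congr_deriv ?_
        ring
      apply monotoneOn_of_deriv_nonneg (convex_Icc 0 T)
      · exact fun t _ => (hdd t).continuousAt.continuousWithinAt
      · exact fun t _ => (hdd t).differentiableAt.differentiableWithinAt
      · intro t ht
        rw [interior_Icc] at ht
        rw [(hdd t).deriv, hχ, chi_one hr₂0.le hr₂' hs₁0.le hs₂ (hge t ht.1.le) (hle t ht.2.le)]
        simp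
    have h3 := hmono2 ⟨le_rfl, hT0⟩ ⟨hT0, le_rfl⟩ hT0
    simp only [mul_zero, neg_zero, Real.exp_zero, one_mul, hn, hFl₁.zero] at h3
    have h4 : Real.exp (-(2 * T)) = r₁ ^ 2 := by
      rw [hT, show -(2 * -Real.log r₁) = Real.log r₁ + Real.log r₁ by ring, Real.exp_add,
        Real.exp_log hr₁0]
      ring
    rw [h4] at h3
    have h5 : r₁ ^ 2 ≤ ‖y‖ ^ 2 := pow_le_pow_left₀ hr₁0.le hy 2
    have h6 : ‖Fl₁ (-T) y‖ ^ 2 < 1 := by
      have : ‖Fl₁ (-T) y‖ < 1 := hcon.trans hs₁'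
      exact pow_lt_one₀ (norm_nonneg _) this two_ne_zero
    have h7 : r₁ ^ 2 * ‖Fl₁ (-T) y‖ ^ 2 < r₁ ^ 2 * 1 := by
      exact mul_lt_mul_of_pos_left h6 (by positivity)
    linarith
  -- the diffeomorphism
  set C : E → E := fun y => Fl₂ T (Fl₁ (-T) y) with hC
  have hCs : ContDiff ℝ ∞ C := (hFl₂.smooth_x T).comp (hFl₁.smooth_x (-T))
  have hCinj : Injective C := (hFl₂.injx T).comp (hFl₁.injx (-T))
  have hC1 : ∀ y : E, r₁ ≤ ‖y‖ → ‖y‖ ≤ 1 → C y = c y := by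
    intro y hy1 hy2
    have h1 := hreach y hy1
    have h2 := hinv2 y (-T) hy2
    have h3 : c (Fl₁ (-T) y) = Fl₁ (-T) y := hc1 _ (by linarith)
    have h4 := hint (Fl₁ (-T) y) T hT0 (by linarith) h2
    rw [h3, hFl₁.add_neg] at h4
    exact h4
  have hC2 : ∀ y : E, s₂ < ‖y‖ → C y = y := by
    intro y hy
    have h1 : Fl₁ (-T) y = y := hFl₁.fixed (hY₁high y hy.le) _
    have h2 : Y₂ y = 0 := by
      apply hY₂K
      rintro ⟨u, hu, huy⟩
      have hu1 := (hKmem u).1 hu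
      rcases le_or_gt ‖y‖ 1 with h3 | h3
      · have h4 : c y = y := hc1 y (by linarith)
        have h5 : u = y := hJ.2 (hKSh hu) ⟨by linarith [hu1.1, hu1.2], h3⟩ (huy.trans h4.symm)
        rw [h5] at hu1
        exact absurd hu1.2 (not_le.2 hy)
      · have h4 := hJ.1 u (hKSh hu)
        rw [huy] at h4
        exact absurd h4 (not_le.2 h3)
    show Fl₂ T (Fl₁ (-T) y) = y
    rw [h1]
    exact hFl₂.fixed h2 _
  have hCB : ∀ y : E, ‖y‖ ≤ 1 → ‖C y‖ ≤ 1 := by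
    intro y hy
    by_contra h
    push Not at h
    have h1 : C y = y := hCinj (hC2 (C y) (by linarith))
    rw [h1] at h
    linarith
  refine ⟨C, hCs, fun x => ?_, hCB, fun x hx1 hx2 => ?_⟩
  · have h2 : C = Fl₂ T ∘ Fl₁ (-T) := rfl
    rw [h2, fderiv_comp x ((hFl₂.smooth_x T).differentiable (by simp) _)
      ((hFl₁.smooth_x (-T)).differentiable (by simp) _)]
    exact (hFl₂.inj T _).comp (hFl₁.inj (-T) x)
  · rcases le_or_gt ‖x‖ 1 with h | h
    · rw [hC1 x hx1 h]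
      exact (hloc x ⟨hr₁.le.trans hx1, h⟩).2.2.self_of_nhds
    · rw [hC2 x (by linarith)]
      exact haG x (by rw [abs_lt]; constructor <;> linarith)

end Pool.Agent.H27.Tgt
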